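import Mathlib

set_option autoImplicit false
open Filter Topology MeasureTheory Set

namespace Pool.Agent.H329R3.Br

/-- the real beta integral -/
lemma beta_int (a b : ℝ) (ha : 0 < a) (hb : 0 < b) :
    ∫ t in (0:ℝ)..1, t ^ (a - 1) * (1 - t) ^ (b - 1) =
      Real.Gamma a * Real.Gamma b / Real.Gamma (a + b) := by
  have h := ProbabilityTheory.beta_eq_betaIntegralReal a b ha hb
  rw [ProbabilityTheory.beta] at h
  rw [h, Complex.betaIntegral, intervalIntegral.integral_of_le zero_le_one,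
    intervalIntegral.integral_of_le zero_le_one, ← RCLike.re_to_complex, ← integral_re]
  · refine setIntegral_congr_fun measurableSet_Ioc fun x ⟨hx1, hx₂⟩ ↦ ?_
    norm_cast
    rw [← Complex.ofReal_cpow, ← Complex.ofReal_cpow, RCLike.re_to_complex,
      Complex.re_mul_ofReal, Complex.ofReal_re]
    all_goals linarith
  · convert! Complex.betaIntegral_convergent (u := a) (v := b) (by simpa) (by simpa)
    rw [intervalIntegrable_iff_integrableOn_Ioc_of_le (by simp), IntegrableOn]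

/-- binomial coefficients -/
noncomputable def c (α : ℝ) (k : ℕ) : ℝ := (∏ j ∈ Finset.range k, (α - (j : ℝ))) / (k.factorial : ℝ)

lemma c_succ (α : ℝ) (k : ℕ) : c α (k + 1) = c α k * (α - k) / (k + 1) := by
  unfold c
  rw [Finset.prod_range_succ, Nat.factorial_succ]
  push_cast
  have : (k.factorial : ℝ) ≠ 0 := by positivity
  have : (k : ℝ) + 1 ≠ 0 := by positivity
  field_simp

lemma c_succ' (α : ℝ) (k : ℕ) : c α (k + 1) = α / (k + 1) * c (α - 1) k := by
  unfold c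
  rw [Finset.prod_range_succ', Nat.factorial_succ]
  push_cast
  have : (k.factorial : ℝ) ≠ 0 := by positivity
  have : (k : ℝ) + 1 ≠ 0 := by positivity
  field_simp
  rw [sub_zero, mul_comm]
  congr 1
  apply Finset.prod_congr rfl
  intro j _
  ring

/-- the weight -/
noncomputable def W (α : ℝ) (m : ℕ) (t : ℝ) : ℝ := t ^ ((m : ℝ) - α) * (1 - t) ^ α

lemma W_cont {α : ℝ} (h0 : 0 ≤ α) {m : ℕ} (hm : α ≤ m) : Continuous (W α m) := by
  unfold W
  exact (Real.continuous_rpow_const (by linarith)).mul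
    ((Real.continuous_rpow_const h0).comp (continuous_const.sub continuous_id))

lemma W_nonneg (α : ℝ) (m : ℕ) {t : ℝ} (h0 : 0 ≤ t) (h1 : t ≤ 1) : 0 ≤ W α m t := by
  unfold W
  exact mul_nonneg (Real.rpow_nonneg h0 _) (Real.rpow_nonneg (by linarith) _)

lemma W_le_one {α : ℝ} (h0 : 0 ≤ α) {m : ℕ} (hm : α ≤ m) {t : ℝ} (ht0 : 0 ≤ t) (h1 : t ≤ 1) :
    W α m t ≤ 1 := by
  unfold W
  have e1 : t ^ ((m : ℝ) - α) ≤ 1 := Real.rpow_le_one ht0 h1 (by linarith)
  have e2 : (1 - t) ^ α ≤ 1 := Real.rpow_le_one (by linarith) (by linarith) h0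
  have e3 : 0 ≤ (1 - t) ^ α := Real.rpow_nonneg (by linarith) _
  calc _ ≤ 1 * 1 := mul_le_mul e1 e2 e3 zero_le_one
    _ = 1 := by norm_num

/-- moments of the weight -/
noncomputable def mu (α : ℝ) (m j : ℕ) : ℝ := ∫ t in (0:ℝ)..1, t ^ j * W α m t

lemma mu_eq {α : ℝ} (h0 : 0 < α) {m : ℕ} (hm : α < m) (j : ℕ) :
    mu α m j = Real.Gamma ((m : ℝ) + j + 1 - α) * Real.Gamma (α + 1) / Real.Gamma ((m : ℝ) + j + 2) := by
  have hj : (0:ℝ) ≤ j := Nat.cast_nonneg j
  have h := beta_int ((m : ℝ) + j + 1 - α) (α + 1) (by linarith) (by linarith)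
  have e1 : (m : ℝ) + j + 1 - α + (α + 1) = (m : ℝ) + j + 2 := by ring
  rw [e1] at h
  rw [← h]
  unfold mu W
  rw [intervalIntegral.integral_of_le zero_le_one, intervalIntegral.integral_of_le zero_le_one]
  refine setIntegral_congr_fun measurableSet_Ioc fun t ht ↦ ?_
  have e2 : (m : ℝ) + j + 1 - α - 1 = (j : ℝ) + ((m : ℝ) - α) := by ring
  have e3 : α + 1 - 1 = α := by ring
  simp only [e2, e3]
  rw [Real.rpow_add ht.1, Real.rpow_natCast]
  ring

lemma mu_pos {α : ℝ} (h0 : 0 < α) {m : ℕ} (hm : α < m) (j : ℕ) : 0 < mu α m j := by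
  have hj : (0:ℝ) ≤ j := Nat.cast_nonneg j
  rw [mu_eq h0 hm]
  exact div_pos (mul_pos (Real.Gamma_pos_of_pos (by linarith)) (Real.Gamma_pos_of_pos (by linarith)))
    (Real.Gamma_pos_of_pos (by positivity))

lemma mu_succ {α : ℝ} (h0 : 0 < α) {m : ℕ} (hm : α < m) (j : ℕ) :
    ((m : ℝ) + j + 2) * mu α m (j + 1) = ((m : ℝ) + j + 1 - α) * mu α m j := by
  have hj : (0:ℝ) ≤ j := Nat.cast_nonneg j
  rw [mu_eq h0 hm, mu_eq h0 hm]
  push_cast
  have e1 : (m : ℝ) + (j + 1) + 1 - α = ((m : ℝ) + j + 1 - α) + 1 := by ring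
  have e2 : (m : ℝ) + (j + 1) + 2 = ((m : ℝ) + j + 2) + 1 := by ring
  have hne : (m : ℝ) + j + 1 - α ≠ 0 := ne_of_gt (by linarith)
  have hne2 : (m : ℝ) + j + 2 ≠ 0 := by positivity
  rw [e1, e2, Real.Gamma_add_one hne, Real.Gamma_add_one hne2]
  have : Real.Gamma ((m : ℝ) + j + 2) ≠ 0 := (Real.Gamma_pos_of_pos (by positivity)).ne'
  field_simp

/-- signed normalising constant -/
noncomputable def kap (α : ℝ) (m : ℕ) : ℝ := c α (m + 1) / mu α m 0

lemma c_tail {α : ℝ} (h0 : 0 < α) {m : ℕ} (hm : α < m) (j : ℕ) :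
    c α (m + 1 + j) = (-1) ^ j * kap α m * mu α m j := by
  have hmu := mu_pos h0 hm 0
  induction j with
  | zero => unfold kap; simp; field_simp
  | succ j ih =>
    have h1 := mu_succ h0 hm j
    have hj : (0:ℝ) ≤ j := Nat.cast_nonneg j
    have h2 : ((m : ℝ) + j + 2) ≠ 0 := by positivity
    have h3 : mu α m (j + 1) = ((m : ℝ) + j + 1 - α) * mu α m j / ((m : ℝ) + j + 2) := by
      rw [← h1]; field_simp
    rw [← add_assoc, c_succ, ih, h3]
    push_cast
    have h4 : (m : ℝ) + 1 + j + 1 ≠ 0 := by positivity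
    rw [pow_succ]
    have h5 : (m : ℝ) + j + 2 = (m : ℝ) + 1 + j + 1 := by ring
    rw [h5]
    field_simp
    ring

lemma kap_mul_mu {α : ℝ} (h0 : 0 < α) {m : ℕ} (hm : α < m) : kap α m * mu α m 0 = c α (m + 1) := by
  have := c_tail h0 hm 0
  simpa using this.symm

/-- `E x = ∫ W/(1 + t x)` -/
noncomputable def E (α : ℝ) (m : ℕ) (x : ℂ) : ℂ := ∫ t in (0:ℝ)..1, (W α m t : ℂ) / (1 + t * x)

/-- partial sums -/
noncomputable def p (α : ℝ) (n : ℕ) (x : ℂ) : ℂ := ∑ k ∈ Finset.range (n + 1), (c α k : ℂ) * x ^ k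

lemma norm_sq_one_add {x : ℂ} (hx : ‖x‖ = 1) (t : ℝ) :
    ‖1 + t * x‖ ^ 2 = (1 - t) ^ 2 + t * ‖1 + x‖ ^ 2 := by
  have h1 : x.re ^ 2 + x.im ^ 2 = 1 := by
    have := Complex.sq_norm x
    rw [hx, Complex.normSq_apply] at this
    nlinarith
  rw [Complex.sq_norm, Complex.sq_norm, Complex.normSq_apply, Complex.normSq_apply]
  simp
  linear_combination (t ^ 2 - t) * h1

lemma norm_one_add_le_two {x : ℂ} (hx : ‖x‖ = 1) : ‖1 + x‖ ≤ 2 := by
  calc ‖1 + x‖ ≤ ‖(1:ℂ)‖ + ‖x‖ := norm_add_le _ _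
    _ = 2 := by rw [hx]; norm_num

lemma lower {x : ℂ} (hx : ‖x‖ = 1) {t : ℝ} (h0 : 0 ≤ t) :
    ‖1 + x‖ / 2 * (1 + t) ≤ ‖1 + t * x‖ := by
  have h1 := norm_sq_one_add hx t
  have h2 := norm_one_add_le_two hx
  have h3 := norm_nonneg (1 + x)
  refine le_of_sq_le_sq ?_ (norm_nonneg _)
  rw [h1]
  nlinarith [mul_nonneg h3 h3, sq_nonneg (1 - t), mul_nonneg (sub_nonneg.2 h2) h3,
    mul_nonneg (sq_nonneg (1 - t)) (by nlinarith : 0 ≤ 4 - ‖1 + x‖ ^ 2)]


lemma one_add_ne {x : ℂ} (hx : ‖x‖ = 1) (hx1 : 1 + x ≠ 0) {t : ℝ} (h0 : 0 ≤ t) :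
    (1 : ℂ) + t * x ≠ 0 := by
  have h1 := lower hx h0
  have h2 : 0 < ‖1 + x‖ := norm_pos_iff.2 hx1
  have h3 : 0 < ‖1 + (t:ℂ) * x‖ := lt_of_lt_of_le (by positivity) h1
  exact norm_pos_iff.1 h3

lemma E_int {α : ℝ} (h0 : 0 < α) {m : ℕ} (hm : α < m) {x : ℂ} (hx : ‖x‖ = 1) (hx1 : 1 + x ≠ 0)
    (n : ℕ) :
    ContinuousOn (fun t : ℝ => (W α m t : ℂ) * (-(t * x)) ^ n / (1 + t * x)) (uIcc (0:ℝ) 1) := by
  have hW := W_cont h0.le hm.le
  apply ContinuousOn.div
  · fun_prop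
  · fun_prop
  · intro t ht
    rw [uIcc_of_le zero_le_one] at ht
    exact one_add_ne hx hx1 ht.1

lemma tail_sum {α : ℝ} (h0 : 0 < α) {m : ℕ} (hm : α < m) {x : ℂ} (hx : ‖x‖ = 1) (hx1 : 1 + x ≠ 0)
    (n : ℕ) :
    ∑ j ∈ Finset.range n, (c α (m + 1 + j) : ℂ) * x ^ (m + 1 + j) =
      x ^ (m + 1) * kap α m * (E α m x -
        ∫ t in (0:ℝ)..1, (W α m t : ℂ) * (-(t * x)) ^ n / (1 + t * x)) := by
  have hW := W_cont h0.le hm.le
  have e1 : ∀ j ∈ Finset.range n, (c α (m + 1 + j) : ℂ) * x ^ (m + 1 + j) =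
      x ^ (m + 1) * kap α m * ∫ t in (0:ℝ)..1, (W α m t : ℂ) * (-(t * x)) ^ j := by
    intro j _
    rw [c_tail h0 hm]
    have e2 : (∫ t in (0:ℝ)..1, (W α m t : ℂ) * (-(t * x)) ^ j) = (-x) ^ j * (mu α m j : ℂ) := by
      unfold mu
      rw [← intervalIntegral.integral_ofReal, ← intervalIntegral.integral_const_mul]
      apply intervalIntegral.integral_congr
      intro t _
      simp only
      push_cast
      rw [show -((t:ℂ) * x) = (-x) * t by ring, mul_pow]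
      ring
    rw [e2]
    push_cast
    rw [pow_add x, neg_pow x]
    ring
  rw [Finset.sum_congr rfl e1, ← Finset.mul_sum, ← intervalIntegral.integral_finsetSum]
  · congr 1
    unfold E
    rw [← intervalIntegral.integral_sub]
    · apply intervalIntegral.integral_congr
      intro t ht
      rw [uIcc_of_le zero_le_one] at ht
      have hne := one_add_ne hx hx1 ht.1
      simp only
      rw [← Finset.mul_sum, ← sub_div, eq_div_iff hne]
      have hg := mul_neg_geom_sum (-((t:ℂ) * x)) n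
      rw [sub_neg_eq_add] at hg
      linear_combination (W α m t : ℂ) * hg
    · have := (E_int h0 hm hx hx1 0).intervalIntegrable (μ := volume)
      simpa using this
    · exact (E_int h0 hm hx hx1 n).intervalIntegrable
  · intro j _
    apply Continuous.intervalIntegrable
    fun_prop

lemma mu_le {α : ℝ} (h0 : 0 < α) {m : ℕ} (hm : α < m) (n : ℕ) : mu α m n ≤ 1 / ((n : ℝ) + 1) := by
  have hW := W_cont h0.le hm.le
  have e : ∫ t in (0:ℝ)..1, t ^ n = 1 / ((n : ℝ) + 1) := by simp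
  rw [← e]
  unfold mu
  apply intervalIntegral.integral_mono_on zero_le_one
  · apply Continuous.intervalIntegrable; fun_prop
  · apply Continuous.intervalIntegrable; fun_prop
  · intro t ht
    have h1 := W_le_one h0.le hm.le ht.1 ht.2
    have h2 : 0 ≤ t ^ n := pow_nonneg ht.1 n
    calc t ^ n * W α m t ≤ t ^ n * 1 := mul_le_mul_of_nonneg_left h1 h2
      _ = t ^ n := mul_one _

lemma rem_bound {α : ℝ} (h0 : 0 < α) {m : ℕ} (hm : α < m) {x : ℂ} (hx : ‖x‖ = 1) (hx1 : 1 + x ≠ 0)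
    (n : ℕ) :
    ‖∫ t in (0:ℝ)..1, (W α m t : ℂ) * (-(t * x)) ^ n / (1 + t * x)‖ ≤
      2 / ‖1 + x‖ * mu α m n := by
  have hW := W_cont h0.le hm.le
  have h2 : 0 < ‖1 + x‖ := norm_pos_iff.2 hx1
  unfold mu
  rw [← intervalIntegral.integral_const_mul]
  apply intervalIntegral.norm_integral_le_of_norm_le zero_le_one
  · refine ae_of_all _ fun t ht => ?_
    have ht0 : 0 ≤ t := ht.1.le
    rw [norm_div, norm_mul, norm_pow, norm_neg, norm_mul, hx, mul_one, Complex.norm_real,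
      Complex.norm_real, Real.norm_of_nonneg (W_nonneg α m ht0 ht.2), Real.norm_of_nonneg ht0]
    have h3 := lower hx ht0
    have h4 : ‖1 + x‖ / 2 ≤ ‖1 + (t:ℂ) * x‖ := by
      refine le_trans ?_ h3
      nlinarith
    have h5 : 0 ≤ W α m t * t ^ n := mul_nonneg (W_nonneg α m ht0 ht.2) (pow_nonneg ht0 n)
    calc W α m t * t ^ n / ‖1 + (t:ℂ) * x‖ ≤ W α m t * t ^ n / (‖1 + x‖ / 2) :=
          div_le_div_of_nonneg_left h5 (by positivity) h4
      _ = 2 / ‖1 + x‖ * (t ^ n * W α m t) := by field_simp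
  · apply Continuous.intervalIntegrable; fun_prop

lemma choose_eq (α : ℝ) (k : ℕ) : Ring.choose (α : ℂ) k = (c α k : ℂ) := by
  have h1 := Ring.descPochhammer_eq_factorial_smul_choose (α : ℂ) k
  have h2 : ∀ n : ℕ, (descPochhammer ℤ n).smeval (α : ℂ) = ∏ j ∈ Finset.range n, ((α : ℂ) - j) := by
    intro n
    induction n with
    | zero => simp
    | succ n ih =>
      rw [Finset.prod_range_succ, ← ih]
      simp [descPochhammer_succ_right, Polynomial.smeval_mul, Polynomial.smeval_natCast]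
  rw [h2] at h1
  unfold c
  push_cast
  have : (k.factorial : ℂ) ≠ 0 := by exact_mod_cast k.factorial_ne_zero
  rw [eq_div_iff this, h1]
  simp [mul_comm]

lemma hasSum_binom (α : ℝ) {x : ℂ} (hx : ‖x‖ < 1) :
    HasSum (fun k => (c α k : ℂ) * x ^ k) ((1 + x) ^ (α : ℂ)) := by
  have h := (Complex.one_add_cpow_hasFPowerSeriesOnBall_zero (a := (α : ℂ))).hasSum
    (y := x) (by simpa [← ENNReal.ofReal_one, Metric.eball_ofReal] using hx)
  simp only [zero_add] at h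
  convert! h using 2 with k
  rw [binomialSeries_apply, choose_eq]
  simp


lemma p_tendsto {α : ℝ} (h0 : 0 < α) {m : ℕ} (hm : α < m) {x : ℂ} (hx : ‖x‖ = 1) (hx1 : 1 + x ≠ 0) :
    Tendsto (fun n => ∑ k ∈ Finset.range n, (c α k : ℂ) * x ^ k) atTop
      (𝓝 (p α m x + x ^ (m + 1) * kap α m * E α m x)) := by
  rw [← tendsto_add_atTop_iff_nat (m + 1)]
  have e : ∀ n : ℕ, ∑ k ∈ Finset.range (n + (m + 1)), (c α k : ℂ) * x ^ k =
      p α m x + x ^ (m + 1) * kap α m * (E α m x -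
        ∫ t in (0:ℝ)..1, (W α m t : ℂ) * (-(t * x)) ^ n / (1 + t * x)) := by
    intro n
    rw [add_comm n (m + 1), Finset.sum_range_add, tail_sum h0 hm hx hx1]
    rfl
  simp only [e]
  apply Tendsto.const_add
  apply Tendsto.const_mul
  have hz : Tendsto (fun n : ℕ => ∫ t in (0:ℝ)..1, (W α m t : ℂ) * (-(t * x)) ^ n / (1 + t * x))
      atTop (𝓝 0) := by
    apply squeeze_zero_norm (rem_bound h0 hm hx hx1)
    have h1 : Tendsto (fun n : ℕ => mu α m n) atTop (𝓝 0) := by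
      apply squeeze_zero (fun n => (mu_pos h0 hm n).le) (mu_le h0 hm)
      exact tendsto_one_div_add_atTop_nhds_zero_nat
    simpa using h1.const_mul (2 / ‖1 + x‖)
  simpa using hz.const_sub (E α m x)

/-- The tail formula. -/
theorem p_repr {α : ℝ} (h0 : 0 < α) {m : ℕ} (hm : α < m) {x : ℂ} (hx : ‖x‖ = 1) (hx1 : 1 + x ≠ 0)
    (hs : 1 + x ∈ Complex.slitPlane) :
    p α m x = (1 + x) ^ (α : ℂ) - x ^ (m + 1) * kap α m * E α m x := by
  have h1 := Complex.tendsto_tsum_powerSeries_nhdsWithin_lt (p_tendsto h0 hm hx hx1)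
  rw [tendsto_map'_iff] at h1
  have h2 : Tendsto (fun r : ℝ => (1 + (r : ℂ) * x) ^ (α : ℂ)) (𝓝[<] 1) (𝓝 ((1 + x) ^ (α : ℂ))) := by
    have hc : ContinuousAt (fun r : ℝ => (1 + (r : ℂ) * x) ^ (α : ℂ)) 1 := by
      apply ContinuousAt.cpow
      · fun_prop
      · fun_prop
      · simpa using hs
    have := hc.tendsto
    simp only [Complex.ofReal_one, one_mul] at this
    exact this.mono_left nhdsWithin_le_nhds
  have h3 : ∀ᶠ r : ℝ in 𝓝[<] 1, (1 + (r : ℂ) * x) ^ (α : ℂ) =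
      ((fun z : ℂ => ∑' n, (c α n : ℂ) * x ^ n * z ^ n) ∘ Complex.ofReal) r := by
    have h4 : ∀ᶠ r : ℝ in 𝓝[<] 1, 0 < r :=
      mem_nhdsWithin_of_mem_nhds (Ioi_mem_nhds one_pos)
    filter_upwards [h4, self_mem_nhdsWithin] with r hr hr1
    have hr1' : r < 1 := hr1
    have h5 := hasSum_binom α (x := (r : ℂ) * x) (by
      rw [norm_mul, hx, mul_one, Complex.norm_real, Real.norm_of_nonneg hr.le]; exact hr1')
    rw [← h5.tsum_eq]
    simp only [Function.comp]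
    apply tsum_congr
    intro k
    rw [mul_pow]; ring
  have h6 := h2.congr' h3
  have h7 := tendsto_nhds_unique h1 h6
  rw [← h7]; ring

end Pool.Agent.H329R3.Br
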