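import Mathlib
import Pool.Agent.H329R3.Br1

set_option autoImplicit false
open Filter Topology MeasureTheory Set

namespace Pool.Agent.H329R3.Br

/-- the quadratic `(1-t)^2 + t v^2 = |1 + t x|^2` for `v = |1 + x|`. -/
noncomputable def Q (t v : ℝ) : ℝ := (1 - t) ^ 2 + t * v ^ 2

lemma Q_pos {t v : ℝ} (ht : 0 ≤ t) (hv : 0 < v) : 0 < Q t v := by
  unfold Q
  rcases ht.eq_or_lt with h | h
  · rw [← h]; norm_num
  · positivity

/-- `Φ(v) = v^α + κ ∫ W / √Q`. -/
noncomputable def Phi (α κ : ℝ) (m : ℕ) (v : ℝ) : ℝ :=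
  v ^ α + κ * ∫ t in (0:ℝ)..1, W α m t * (√(Q t v))⁻¹

lemma Q_lower {t v : ℝ} (ht : 0 ≤ t) (hv : 0 ≤ v) (hv2 : v ≤ 2) : (v / 2 * (1 + t)) ^ 2 ≤ Q t v := by
  unfold Q
  nlinarith [mul_nonneg hv hv, sq_nonneg (1 - t), mul_nonneg (sub_nonneg.2 hv2) hv,
    mul_nonneg (sq_nonneg (1 - t)) (by nlinarith : 0 ≤ 4 - v ^ 2)]

lemma hasDeriv_inv_sqrt {t v : ℝ} (ht : 0 ≤ t) (hv : 0 < v) :
    HasDerivAt (fun v => (√(Q t v))⁻¹) (-(t * v / (√(Q t v)) ^ 3)) v := by
  have hQ := Q_pos ht hv
  have h1 : HasDerivAt (fun v => Q t v) (t * (2 * v)) v := by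
    unfold Q
    have := ((hasDerivAt_pow 2 v).const_mul t).const_add ((1 - t) ^ 2)
    simpa using this
  have h2 := (h1.sqrt hQ.ne').inv (Real.sqrt_pos.2 hQ).ne'
  convert! h2 using 1
  have := Real.sqrt_pos.2 hQ
  field_simp

/-- comparison quadratic -/
noncomputable def R (t v : ℝ) : ℝ := (1 - t) ^ 2 + t ^ 2 * v ^ 2

lemma R_pos {v : ℝ} (hv : 0 < v) (t : ℝ) : 0 < R t v := by
  unfold R
  rcases eq_or_ne t 0 with h | h
  · rw [h]; norm_num
  · positivity

/-- antiderivative -/
noncomputable def H (α v t : ℝ) : ℝ := (α * t - (1 - α) * (1 - t) / v) / √(R t v)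

lemma H_deriv (α : ℝ) {v : ℝ} (hv : 0 < v) (t : ℝ) :
    HasDerivAt (H α v) (((1 - α) * (t * v) + α * (1 - t)) / (√(R t v)) ^ 3) t := by
  have hR := R_pos hv t
  have hs := Real.sqrt_pos.2 hR
  have h1 : HasDerivAt (fun t => R t v) (-(2 * (1 - t)) + 2 * t * v ^ 2) t := by
    unfold R
    have h3 : HasDerivAt (fun t : ℝ => (1 - t)) (-1) t := by
      simpa using (hasDerivAt_id t).const_sub 1
    have h4 := (h3.pow 2).add ((hasDerivAt_pow 2 t).mul_const (v ^ 2))
    convert! h4 using 1
    push_cast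
    ring
  have h2 : HasDerivAt (fun t : ℝ => α * t - (1 - α) * (1 - t) / v) (α + (1 - α) / v) t := by
    have h3 : HasDerivAt (fun t : ℝ => (1 - t)) (-1) t := by
      simpa using (hasDerivAt_id t).const_sub 1
    have h4 := ((hasDerivAt_id t).const_mul α).sub ((h3.const_mul (1 - α)).div_const v)
    convert! h4 using 1
    simp
    ring
  have h5 := h2.div (h1.sqrt hR.ne') hs.ne'
  unfold H
  convert! h5 using 1
  have h6 : (√(R t v)) ^ 2 = R t v := Real.sq_sqrt hR.le
  have h7 : (α + (1 - α) / v) * √(R t v) - (α * t - (1 - α) * (1 - t) / v) *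
      ((-(2 * (1 - t)) + 2 * t * v ^ 2) / (2 * √(R t v))) =
      ((α + (1 - α) / v) * (√(R t v)) ^ 2 - (α * t - (1 - α) * (1 - t) / v) *
      (-(1 - t) + t * v ^ 2)) / √(R t v) := by
    field_simp
  rw [h7, h6]
  have h8 : (α + (1 - α) / v) * R t v - (α * t - (1 - α) * (1 - t) / v) *
      (-(1 - t) + t * v ^ 2) = (1 - α) * (t * v) + α * (1 - t) := by
    unfold R
    field_simp
    ring
  rw [h8]
  field_simp
  rw [h6]

lemma deriv_bound {α : ℝ} (h0 : 0 < α) (h1 : α < 1) {m : ℕ} (hm : α < m) {v : ℝ} (hv : 0 < v) :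
    ∫ t in (0:ℝ)..1, W α m t * (t * v / (√(Q t v)) ^ 3) ≤ v ^ (α - 1) := by
  have hW := W_cont h0.le hm.le
  have hRc : Continuous (fun t : ℝ => R t v) := by unfold R; fun_prop
  have hQc : Continuous (fun t : ℝ => Q t v) := by unfold Q; fun_prop
  have hderc : Continuous (fun t : ℝ => ((1 - α) * (t * v) + α * (1 - t)) / (√(R t v)) ^ 3) := by
    apply Continuous.div
    · fun_prop
    · exact (hRc.sqrt).pow 3
    · intro t
      exact (pow_pos (Real.sqrt_pos.2 (R_pos hv t)) 3).ne'
  have hint : ∫ t in (0:ℝ)..1, v ^ α * (((1 - α) * (t * v) + α * (1 - t)) / (√(R t v)) ^ 3) =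
      v ^ (α - 1) := by
    rw [intervalIntegral.integral_const_mul, intervalIntegral.integral_eq_sub_of_hasDerivAt
      (fun t _ => H_deriv α hv t) (hderc.intervalIntegrable _ _)]
    unfold H R
    have e1 : √((1 - 1) ^ 2 + 1 ^ 2 * v ^ 2) = v := by
      rw [show (1 - 1 : ℝ) ^ 2 + 1 ^ 2 * v ^ 2 = v ^ 2 by ring, Real.sqrt_sq hv.le]
    have e2 : √((1 - 0) ^ 2 + 0 ^ 2 * v ^ 2) = 1 := by
      rw [show (1 - 0 : ℝ) ^ 2 + 0 ^ 2 * v ^ 2 = 1 by ring, Real.sqrt_one]
    rw [e1, e2, Real.rpow_sub_one hv.ne']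
    field_simp
    ring
  rw [← hint]
  apply intervalIntegral.integral_mono_on zero_le_one
  · apply ContinuousOn.intervalIntegrable
    rw [uIcc_of_le zero_le_one]
    apply ContinuousOn.mul hW.continuousOn
    apply ContinuousOn.div
    · fun_prop
    · exact ((hQc.sqrt).pow 3).continuousOn
    · intro t ht
      exact (pow_pos (Real.sqrt_pos.2 (Q_pos ht.1 hv)) 3).ne'
  · exact (hderc.const_mul _).intervalIntegrable _ _
  · intro t ht
    have ht0 := ht.1
    have ht1 := ht.2
    have hsR := Real.sqrt_pos.2 (R_pos hv t)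
    have hRQ : R t v ≤ Q t v := by
      unfold R Q
      have : t ^ 2 ≤ t := by nlinarith
      nlinarith [sq_nonneg v]
    have hsle : √(R t v) ≤ √(Q t v) := Real.sqrt_le_sqrt hRQ
    have hsQ := lt_of_lt_of_le hsR hsle
    rcases ht0.eq_or_lt with h | h
    · rw [← h]
      simp only [zero_mul, zero_div, mul_zero, sub_zero, mul_one, zero_add]
      positivity
    · have k1 : W α m t * t ≤ v ^ α * ((1 - α) * t + α * ((1 - t) / v)) := by
        unfold W
        have a1 : t ^ ((m : ℝ) - α) * t ≤ t ^ (1 - α) := by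
          have : t ^ ((m : ℝ) - α) * t = t ^ ((m : ℝ) - α + 1) := by
            rw [Real.rpow_add_one h.ne']
          rw [this]
          apply Real.rpow_le_rpow_of_exponent_ge h ht1
          have : (0:ℝ) ≤ m := Nat.cast_nonneg m
          linarith
        have a2 : (1 - t) ^ α = v ^ α * ((1 - t) / v) ^ α := by
          rw [Real.div_rpow (by linarith) hv.le]
          field_simp
        have a3 : t ^ (1 - α) * ((1 - t) / v) ^ α ≤ (1 - α) * t + α * ((1 - t) / v) := by
          apply Real.geom_mean_le_arith_mean2_weighted (by linarith) h0.le ht0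
            (div_nonneg (by linarith) hv.le) (by ring)
        have a4 : 0 ≤ (1 - t) ^ α := Real.rpow_nonneg (by linarith) _
        calc t ^ ((m : ℝ) - α) * (1 - t) ^ α * t = (t ^ ((m : ℝ) - α) * t) * (1 - t) ^ α := by ring
          _ ≤ t ^ (1 - α) * (1 - t) ^ α := mul_le_mul_of_nonneg_right a1 a4
          _ = v ^ α * (t ^ (1 - α) * ((1 - t) / v) ^ α) := by rw [a2]; ring
          _ ≤ _ := mul_le_mul_of_nonneg_left a3 (Real.rpow_nonneg hv.le _)
      have k2 : 0 ≤ v ^ α * ((1 - α) * t + α * ((1 - t) / v)) := by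
        have : 0 ≤ 1 - t := by linarith
        have : 0 ≤ 1 - α := by linarith
        positivity
      calc W α m t * (t * v / √(Q t v) ^ 3) = (W α m t * t) * (v / √(Q t v) ^ 3) := by ring
        _ ≤ (v ^ α * ((1 - α) * t + α * ((1 - t) / v))) * (v / √(Q t v) ^ 3) :=
            mul_le_mul_of_nonneg_right k1 (by positivity)
        _ ≤ (v ^ α * ((1 - α) * t + α * ((1 - t) / v))) * (v / √(R t v) ^ 3) := by
            apply mul_le_mul_of_nonneg_left _ k2
            apply div_le_div_of_nonneg_left hv.le (by positivity)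
            exact pow_le_pow_left₀ hsR.le hsle 3
        _ = v ^ α * (((1 - α) * (t * v) + α * (1 - t)) / √(R t v) ^ 3) := by
            field_simp


lemma Phi_hasDeriv {α κ : ℝ} (h0 : 0 < α) {m : ℕ} (hm : α < m) {v : ℝ} (hv : 0 < v)
    (hv2 : v < 2) :
    HasDerivAt (Phi α κ m)
      (α * v ^ (α - 1) - κ * ∫ t in (0:ℝ)..1, W α m t * (t * v / (√(Q t v)) ^ 3)) v := by
  have hW := W_cont h0.le hm.le
  have key := (intervalIntegral.hasDerivAt_integral_of_dominated_loc_of_deriv_le
    (F := fun (v : ℝ) (t : ℝ) => W α m t * (√(Q t v))⁻¹)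
    (F' := fun (v : ℝ) (t : ℝ) => W α m t * (-(t * v / (√(Q t v)) ^ 3)))
    (x₀ := v) (s := Ioo (v / 2) 2) (bound := fun _ => 2 / (v / 4) ^ 3) (a := 0) (b := 1)
    (μ := volume) (Ioo_mem_nhds (by linarith) hv2) ?_ ?_ ?_ ?_ ?_ ?_).2
  · have h1 := Real.hasDerivAt_rpow_const (x := v) (p := α) (Or.inl hv.ne')
    have h2 := h1.add (key.const_mul κ)
    unfold Phi
    convert! h2 using 1
    have : (∫ t in (0:ℝ)..1, W α m t * (-(t * v / (√(Q t v)) ^ 3))) =
        - ∫ t in (0:ℝ)..1, W α m t * (t * v / (√(Q t v)) ^ 3) := by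
      rw [← intervalIntegral.integral_neg]
      congr 1
      ext t
      ring
    rw [this]
    ring
  · refine Eventually.of_forall fun x => ?_
    apply Measurable.aestronglyMeasurable
    have : Measurable (W α m) := hW.measurable
    have hQ : Measurable (fun t => Q t x) := by unfold Q; fun_prop
    exact this.mul (hQ.sqrt).inv
  · apply ContinuousOn.intervalIntegrable
    rw [uIcc_of_le zero_le_one]
    apply ContinuousOn.mul hW.continuousOn
    apply ContinuousOn.inv₀
    · have : Continuous (fun t => Q t v) := by unfold Q; fun_prop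
      exact this.sqrt.continuousOn
    · intro t ht
      exact (Real.sqrt_pos.2 (Q_pos ht.1 hv)).ne'
  · apply Measurable.aestronglyMeasurable
    have : Measurable (W α m) := hW.measurable
    have hQ : Measurable (fun t => Q t v) := by unfold Q; fun_prop
    apply this.mul
    apply Measurable.neg
    apply Measurable.div
    · fun_prop
    · exact hQ.sqrt.pow_const 3
  · refine ae_of_all _ fun t ht x hx => ?_
    rw [uIoc_of_le zero_le_one] at ht
    have ht0 := ht.1.le
    have hx0 : 0 < x := by linarith [hx.1]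
    have hQl := Q_lower (t := t) (v := x) ht0 hx0.le hx.2.le
    have h1 : v / 4 ≤ √(Q t x) := by
      apply Real.le_sqrt_of_sq_le
      refine le_trans ?_ hQl
      apply pow_le_pow_left₀ (by positivity)
      nlinarith [hx.1]
    have hW1 := W_le_one h0.le hm.le ht0 ht.2
    have hW0 := W_nonneg α m ht0 ht.2
    rw [norm_mul, Real.norm_of_nonneg hW0, norm_neg, Real.norm_of_nonneg (by positivity)]
    have h2 : t * x / √(Q t x) ^ 3 ≤ 2 / (v / 4) ^ 3 := by
      have hs : 0 < √(Q t x) := lt_of_lt_of_le (by positivity) h1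
      apply div_le_div₀ zero_le_two _ (by positivity) (pow_le_pow_left₀ (by positivity) h1 3)
      nlinarith [hx.2, ht.2]
    calc W α m t * (t * x / √(Q t x) ^ 3) ≤ 1 * (t * x / √(Q t x) ^ 3) :=
          mul_le_mul_of_nonneg_right hW1 (by positivity)
      _ ≤ _ := by rw [one_mul]; exact h2
  · exact intervalIntegrable_const
  · refine ae_of_all _ fun t ht x hx => ?_
    rw [uIoc_of_le zero_le_one] at ht
    have hx0 : 0 < x := by linarith [hx.1]
    exact (hasDeriv_inv_sqrt ht.1.le hx0).const_mul _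

lemma Phi_cont {α κ : ℝ} (h0 : 0 < α) {m : ℕ} (hm : α < m) {v₀ : ℝ} (hv : 0 < v₀) :
    ContinuousOn (Phi α κ m) (Icc v₀ 2) := by
  have hW := W_cont h0.le hm.le
  unfold Phi
  apply ContinuousOn.add
  · exact (Real.continuous_rpow_const h0.le).continuousOn
  · apply ContinuousOn.const_mul
    intro v hv'
    apply intervalIntegral.continuousWithinAt_of_dominated_interval (bound := fun _ => 1 / (v₀ / 2))
    · refine Eventually.of_forall fun x => ?_
      apply Measurable.aestronglyMeasurable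
      have : Measurable (W α m) := hW.measurable
      have hQ : Measurable (fun t => Q t x) := by unfold Q; fun_prop
      exact this.mul (hQ.sqrt).inv
    · filter_upwards [self_mem_nhdsWithin] with x hx
      refine ae_of_all _ fun t ht => ?_
      rw [uIoc_of_le zero_le_one] at ht
      have ht0 := ht.1.le
      have hx0 : 0 < x := by linarith [hx.1]
      have hQl := Q_lower (t := t) (v := x) ht0 hx0.le hx.2
      have h1 : v₀ / 2 ≤ √(Q t x) := by
        apply Real.le_sqrt_of_sq_le
        refine le_trans ?_ hQl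
        apply pow_le_pow_left₀ (by positivity)
        nlinarith [hx.1]
      have hW1 := W_le_one h0.le hm.le ht0 ht.2
      have hW0 := W_nonneg α m ht0 ht.2
      rw [norm_mul, Real.norm_of_nonneg hW0, Real.norm_of_nonneg (by positivity), ← one_div]
      exact mul_le_of_le_one_left (by positivity) hW1 |>.trans
        (one_div_le_one_div_of_le (by positivity) h1)
    · exact intervalIntegrable_const
    · refine ae_of_all _ fun t ht => ?_
      rw [uIoc_of_le zero_le_one] at ht
      have hx0 : 0 < v := by linarith [hv'.1]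
      apply ContinuousAt.continuousWithinAt
      apply ContinuousAt.mul continuousAt_const
      apply ContinuousAt.inv₀
      · have : Continuous (fun x => Q t x) := by unfold Q; fun_prop
        exact this.sqrt.continuousAt
      · exact (Real.sqrt_pos.2 (Q_pos ht.1.le hx0)).ne'

lemma Phi_mono {α κ : ℝ} (h0 : 0 < α) (h1 : α < 1) (hκ0 : 0 ≤ κ) (hκ : κ ≤ α) {m : ℕ} (hm : α < m)
    {v : ℝ} (hv : 0 < v) (hv2 : v ≤ 2) : Phi α κ m v ≤ Phi α κ m 2 := by
  have hmono : MonotoneOn (Phi α κ m) (Icc v 2) := by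
    apply monotoneOn_of_deriv_nonneg (convex_Icc v 2) (Phi_cont h0 hm hv)
    · intro x hx
      rw [interior_Icc] at hx
      exact (Phi_hasDeriv h0 hm (lt_trans hv hx.1) hx.2).differentiableAt.differentiableWithinAt
    · intro x hx
      rw [interior_Icc] at hx
      have hx0 := lt_trans hv hx.1
      rw [(Phi_hasDeriv h0 hm hx0 hx.2).deriv]
      have h2 := deriv_bound h0 h1 hm hx0
      have h3 : 0 ≤ x ^ (α - 1) := Real.rpow_nonneg hx0.le _
      have h4 : κ * ∫ t in (0:ℝ)..1, W α m t * (t * x / (√(Q t x)) ^ 3) ≤ κ * x ^ (α - 1) :=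
        mul_le_mul_of_nonneg_left h2 hκ0
      have h5 : κ * x ^ (α - 1) ≤ α * x ^ (α - 1) := mul_le_mul_of_nonneg_right hκ h3
      linarith
  exact hmono (left_mem_Icc.2 hv2) (right_mem_Icc.2 hv2) hv2

end Pool.Agent.H329R3.Br
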