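import Mathlib
import Pool.Agent.H329R3.Br2

set_option autoImplicit false
open Filter Topology MeasureTheory Set

namespace Pool.Agent.H329R3.Br

lemma re_pos {x : ℂ} (hx : ‖x‖ = 1) (hx1 : 1 + x ≠ 0) : 0 < (1 + x).re := by
  have h1 := norm_sq_one_add hx 1
  have h2 : x.re ^ 2 + x.im ^ 2 = 1 := by
    have := Complex.sq_norm x
    rw [hx, Complex.normSq_apply] at this
    nlinarith
  have h3 : 0 < ‖1 + x‖ ^ 2 := by
    have := norm_pos_iff.2 hx1
    positivity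
  rw [Complex.sq_norm, Complex.normSq_apply] at h3
  simp at h3 ⊢
  nlinarith

lemma norm_eq_sqrtQ {x : ℂ} (hx : ‖x‖ = 1) (t : ℝ) : ‖1 + (t:ℂ) * x‖ = √(Q t ‖1 + x‖) := by
  rw [Q, ← norm_sq_one_add hx t, Real.sqrt_sq (norm_nonneg _)]

lemma norm_E_le {α : ℝ} (h0 : 0 < α) {m : ℕ} (hm : α < m) {x : ℂ} (hx : ‖x‖ = 1)
    (hx1 : 1 + x ≠ 0) :
    ‖E α m x‖ ≤ ∫ t in (0:ℝ)..1, W α m t * (√(Q t ‖1 + x‖))⁻¹ := by
  have hW := W_cont h0.le hm.le
  unfold E
  apply intervalIntegral.norm_integral_le_of_norm_le zero_le_one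
  · refine ae_of_all _ fun t ht => ?_
    rw [norm_div, Complex.norm_real, Real.norm_of_nonneg (W_nonneg α m ht.1.le ht.2),
      norm_eq_sqrtQ hx, div_eq_mul_inv]
  · apply ContinuousOn.intervalIntegrable
    rw [uIcc_of_le zero_le_one]
    apply ContinuousOn.mul hW.continuousOn
    apply ContinuousOn.inv₀
    · have : Continuous (fun t => Q t ‖1 + x‖) := by unfold Q; fun_prop
      exact this.sqrt.continuousOn
    · intro t ht
      exact (Real.sqrt_pos.2 (Q_pos ht.1 (norm_pos_iff.2 hx1))).ne'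

/-- real partial sum -/
noncomputable def S (α : ℝ) (m : ℕ) : ℝ := ∑ k ∈ Finset.range (m + 1), c α k

lemma p_one (α : ℝ) (m : ℕ) : p α m 1 = (S α m : ℂ) := by
  unfold p S
  push_cast
  simp

lemma E_one (α : ℝ) (m : ℕ) :
    E α m 1 = ((∫ t in (0:ℝ)..1, W α m t * (√(Q t 2))⁻¹ : ℝ) : ℂ) := by
  unfold E
  rw [← intervalIntegral.integral_ofReal]
  apply intervalIntegral.integral_congr
  intro t ht
  rw [uIcc_of_le zero_le_one] at ht
  have : √(Q t 2) = 1 + t := by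
    rw [Q, show (1 - t) ^ 2 + t * 2 ^ 2 = (1 + t) ^ 2 by ring]
    exact Real.sqrt_sq (by linarith [ht.1])
  simp only [this]
  push_cast
  rw [mul_one, div_eq_mul_inv]

lemma S_eq {α : ℝ} (h0 : 0 < α) {m : ℕ} (hm : α < m) : S α m = Phi α (-kap α m) m 2 := by
  have h := p_repr h0 hm (x := 1) (by simp) (by norm_num) (by
    left; norm_num)
  rw [p_one, E_one] at h
  have e : (1 + 1 : ℂ) ^ (α : ℂ) = (((2:ℝ) ^ α : ℝ) : ℂ) := by
    rw [Complex.ofReal_cpow (by norm_num)]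
    norm_num
  rw [e, one_pow, one_mul] at h
  have h2 : ((S α m : ℝ) : ℂ) = ((2 ^ α - kap α m * ∫ t in (0:ℝ)..1, W α m t * (√(Q t 2))⁻¹ : ℝ) : ℂ) := by
    rw [h]; push_cast; ring
  have h3 := Complex.ofReal_injective h2
  rw [h3, Phi]
  ring

lemma norm_p_le {α : ℝ} (h0 : 0 < α) {m : ℕ} (hm : α < m) {x : ℂ} (hx : ‖x‖ = 1)
    (hx1 : 1 + x ≠ 0) : ‖p α m x‖ ≤ Phi α |kap α m| m ‖1 + x‖ := by
  rw [p_repr h0 hm hx hx1 (Or.inl (re_pos hx hx1))]
  refine (norm_sub_le _ _).trans ?_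
  rw [norm_mul, norm_mul, norm_pow, hx, one_pow, one_mul, Complex.norm_cpow_real,
    Complex.norm_real, Real.norm_eq_abs, Phi]
  have := norm_E_le h0 hm hx hx1
  gcongr

lemma c_lt_one {α : ℝ} (h1 : α < 1) (k : ℕ) :
    c α (k + 1) * (Real.Gamma (1 - α) * Real.Gamma ((k : ℝ) + 2)) =
      (-1) ^ k * (α * Real.Gamma ((k : ℝ) + 1 - α)) := by
  induction k with
  | zero =>
    have : c α (0 + 1) = α := by simp [c]
    rw [this]
    have h2 : Real.Gamma ((0:ℕ) + 2 : ℝ) = 1 := by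
      push_cast
      rw [zero_add]
      exact Real.Gamma_two
    rw [h2]
    simp
  | succ k ih =>
    rw [c_succ]
    push_cast
    have e1 : (k : ℝ) + 1 + 2 = ((k : ℝ) + 2) + 1 := by ring
    have e2 : (k : ℝ) + 1 + 1 - α = ((k : ℝ) + 1 - α) + 1 := by ring
    have hk : (0:ℝ) ≤ k := Nat.cast_nonneg k
    have n1 : (k : ℝ) + 2 ≠ 0 := by positivity
    have n2 : (k : ℝ) + 1 - α ≠ 0 := by
      have : 0 < (k : ℝ) + 1 - α := by linarith
      exact this.ne'
    have n3 : (k : ℝ) + 1 + 1 ≠ 0 := by positivity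
    rw [e1, e2, Real.Gamma_add_one n1, Real.Gamma_add_one n2, pow_succ]
    have n4 : (k : ℝ) + 1 + 1 = k + 2 := by ring
    rw [n4]
    field_simp
    linear_combination (α - (k + 1)) * ih

lemma kap_lt_one {α : ℝ} (h0 : 0 < α) (h1 : α < 1) {m : ℕ} (hm : α < m) (hodd : Odd m) :
    kap α m ≤ 0 ∧ |kap α m| ≤ α := by
  have hG1 : 0 < Real.Gamma (1 - α) := Real.Gamma_pos_of_pos (by linarith)
  have hG2 : 0 < Real.Gamma (α + 1) := Real.Gamma_pos_of_pos (by linarith)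
  have hG3 : 0 < Real.Gamma ((m : ℝ) + 1 - α) := Real.Gamma_pos_of_pos (by linarith)
  have hm0 : (0:ℝ) ≤ m := Nat.cast_nonneg m
  have hG4 : 0 < Real.Gamma ((m : ℝ) + 2) := Real.Gamma_pos_of_pos (by linarith)
  have hc := c_lt_one h1 m
  rw [hodd.neg_one_pow] at hc
  have hk : kap α m = -(α / (Real.Gamma (1 - α) * Real.Gamma (α + 1))) := by
    unfold kap
    rw [mu_eq h0 hm]
    push_cast
    rw [add_zero]
    rw [div_eq_iff (by positivity)]
    field_simp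
    linear_combination hc
  have hprod : 1 ≤ Real.Gamma (1 - α) * Real.Gamma (α + 1) := by
    rw [Real.Gamma_add_one h0.ne']
    have h := Real.Gamma_mul_Gamma_one_sub α
    have hs : 0 < Real.sin (Real.pi * α) :=
      Real.sin_pos_of_pos_of_lt_pi (by positivity) (by nlinarith [Real.pi_pos])
    have hs2 : Real.sin (Real.pi * α) ≤ Real.pi * α := Real.sin_le (by positivity)
    calc (1:ℝ) ≤ α * (Real.pi / Real.sin (Real.pi * α)) := by
          rw [← mul_div_assoc, le_div_iff₀ hs]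
          linarith
      _ = _ := by rw [← h]; ring
  have hpos : 0 < Real.Gamma (1 - α) * Real.Gamma (α + 1) := by positivity
  have h2 : 0 ≤ α / (Real.Gamma (1 - α) * Real.Gamma (α + 1)) := by positivity
  rw [hk]
  refine ⟨by linarith, ?_⟩
  rw [abs_neg, abs_of_nonneg h2]
  exact div_le_self h0.le hprod

/-- the case `0 < α < 1`, `x ≠ -1` -/
theorem case_lt_one {α : ℝ} (h0 : 0 < α) (h1 : α < 1) {m : ℕ} (hodd : Odd m) {x : ℂ}
    (hx : ‖x‖ = 1) (hx1 : 1 + x ≠ 0) : ‖p α m x‖ ≤ S α m := by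
  have hm : α < m := by
    have : 1 ≤ m := hodd.pos
    have : (1:ℝ) ≤ m := by exact_mod_cast this
    linarith
  obtain ⟨k1, k2⟩ := kap_lt_one h0 h1 hm hodd
  rw [S_eq h0 hm]
  refine (norm_p_le h0 hm hx hx1).trans ?_
  rw [← abs_of_nonpos k1]
  exact Phi_mono h0 h1 (abs_nonneg _) k2 hm (norm_pos_iff.2 hx1) (norm_one_add_le_two hx)

end Pool.Agent.H329R3.Br
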