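import Mathlib
import Pool.Agent.H329R3.Br3

set_option autoImplicit false
open Filter Topology MeasureTheory Set

namespace Pool.Agent.H329R3.Br

lemma c_abs_base {β : ℝ} (h0 : 0 < β) (h1 : β < 1) (k : ℕ) :
    |c β (k + 2)| ≤ β * (1 - β) / ((k : ℝ) + 2) := by
  induction k with
  | zero =>
    have : c β (0 + 2) = -(β * (1 - β) / 2) := by
      simp [c, Finset.prod_range_succ]
      ring
    rw [this, abs_neg, abs_of_nonneg (by have : 0 ≤ 1 - β := by linarith
                                         positivity)]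
    simp
  | succ k ih =>
    have hk : (0:ℝ) ≤ k := Nat.cast_nonneg k
    rw [show k + 1 + 2 = (k + 2) + 1 by ring, c_succ, abs_div, abs_mul]
    push_cast
    have e1 : |β - ((k:ℝ) + 2)| = (k:ℝ) + 2 - β := by
      rw [abs_sub_comm, abs_of_nonneg (by linarith)]
    have e2 : |(k:ℝ) + 2 + 1| = (k:ℝ) + 3 := by rw [abs_of_nonneg (by linarith)]; ring
    rw [e1, e2, show (k:ℝ) + 1 + 2 = k + 3 by ring]
    apply div_le_div_of_nonneg_right _ (by linarith)
    have hb : 0 ≤ β * (1 - β) := mul_nonneg h0.le (by linarith)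
    calc |c β (k + 2)| * ((k:ℝ) + 2 - β) ≤ (β * (1 - β) / ((k : ℝ) + 2)) * ((k:ℝ) + 2) := by
          apply mul_le_mul ih (by linarith) (by linarith)
          positivity
      _ = β * (1 - β) := by field_simp

lemma c_abs_bound {β : ℝ} (h0 : 0 < β) (h1 : β < 1) (N : ℕ) :
    ∀ m : ℕ, N + 3 ≤ m → |c ((N : ℝ) + 1 + β) (m + 1)| ≤ 2 * (β * (1 - β)) / ((m : ℝ) * (m + 1)) := by
  have hb : 0 ≤ β * (1 - β) := mul_nonneg h0.le (by linarith)
  induction N with
  | zero =>
    intro m hm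
    obtain ⟨k, rfl⟩ : ∃ k, m = k + 2 := ⟨m - 2, by omega⟩
    have h := c_abs_base h0 h1 k
    rw [c_succ', abs_mul]
    push_cast
    have hk : (0:ℝ) ≤ k := Nat.cast_nonneg k
    rw [show (0:ℝ) + 1 + β - 1 = β by ring, abs_of_nonneg (by positivity)]
    calc (0 + 1 + β) / ((k:ℝ) + 2 + 1) * |c β (k + 2)| ≤
        2 / ((k:ℝ) + 2 + 1) * (β * (1 - β) / ((k : ℝ) + 2)) := by
          apply mul_le_mul _ h (abs_nonneg _) (by positivity)
          apply div_le_div_of_nonneg_right _ (by positivity)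
          linarith
      _ = _ := by field_simp
  | succ N ih =>
    intro m hm
    obtain ⟨k, rfl⟩ : ∃ k, m = k + 1 := ⟨m - 1, by omega⟩
    have h := ih k (by omega)
    rw [c_succ', abs_mul]
    push_cast
    have hk3 : 3 ≤ k := by omega
    have hk : (3:ℝ) ≤ k := by exact_mod_cast hk3
    have hN : (0:ℝ) ≤ N := Nat.cast_nonneg N
    have hNk : (N:ℝ) + 3 ≤ k := by
      have : N + 3 ≤ k := by omega
      exact_mod_cast this
    rw [show (N:ℝ) + 1 + 1 + β - 1 = N + 1 + β by ring, abs_of_nonneg (by positivity)]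
    calc ((N:ℝ) + 1 + 1 + β) / ((k:ℝ) + 1 + 1) * |c ((N:ℝ) + 1 + β) (k + 1)| ≤
        (k:ℝ) / ((k:ℝ) + 1 + 1) * (2 * (β * (1 - β)) / ((k : ℝ) * (k + 1))) := by
          apply mul_le_mul _ h (abs_nonneg _) (by positivity)
          apply div_le_div_of_nonneg_right _ (by positivity)
          linarith
      _ = _ := by
          have : (k:ℝ) ≠ 0 := by positivity
          field_simp

/-- value of the weight integral at `x = 1` -/
noncomputable def E0 (α : ℝ) (m : ℕ) : ℝ := ∫ t in (0:ℝ)..1, W α m t * (√(Q t 2))⁻¹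

lemma sqrtQ_two {t : ℝ} (ht : 0 ≤ t) : √(Q t 2) = 1 + t := by
  rw [Q, show (1 - t) ^ 2 + t * 2 ^ 2 = (1 + t) ^ 2 by ring]
  exact Real.sqrt_sq (by linarith)

lemma int_W_inv {α : ℝ} (h0 : 0 < α) {m : ℕ} (hm : α < m) {v : ℝ} (hv : 0 < v) :
    IntervalIntegrable (fun t => W α m t * (√(Q t v))⁻¹) volume 0 1 := by
  have hW := W_cont h0.le hm.le
  apply ContinuousOn.intervalIntegrable
  rw [uIcc_of_le zero_le_one]
  apply ContinuousOn.mul hW.continuousOn
  apply ContinuousOn.inv₀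
  · have : Continuous (fun t => Q t v) := by unfold Q; fun_prop
    exact this.sqrt.continuousOn
  · intro t ht
    exact (Real.sqrt_pos.2 (Q_pos ht.1 hv)).ne'

lemma E0_nonneg {α : ℝ} {m : ℕ} : 0 ≤ E0 α m := by
  unfold E0
  apply intervalIntegral.integral_nonneg zero_le_one
  intro t ht
  exact mul_nonneg (W_nonneg α m ht.1 ht.2) (by positivity)

lemma E0_le_mu {α : ℝ} (h0 : 0 < α) {m : ℕ} (hm : α < m) : E0 α m ≤ mu α m 0 := by
  have hW := W_cont h0.le hm.le
  unfold E0 mu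
  apply intervalIntegral.integral_mono_on zero_le_one (int_W_inv h0 hm two_pos)
  · apply Continuous.intervalIntegrable; fun_prop
  · intro t ht
    rw [sqrtQ_two ht.1, pow_zero, one_mul]
    have h1 := W_nonneg α m ht.1 ht.2
    have h2 : (1 + t)⁻¹ ≤ 1 := inv_le_one_of_one_le₀ (by linarith [ht.1])
    exact mul_le_of_le_one_right h1 h2

lemma e0_le {α : ℝ} (h0 : 0 < α) {m : ℕ} (hm : α < m) :
    |kap α m| * E0 α m ≤ |c α (m + 1)| := by
  rw [← kap_mul_mu h0 hm, abs_mul, abs_of_pos (mu_pos h0 hm 0)]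
  exact mul_le_mul_of_nonneg_left (E0_le_mu h0 hm) (abs_nonneg _)

lemma E_le_div {α : ℝ} (h0 : 0 < α) {m : ℕ} (hm : α < m) {x : ℂ} (hx : ‖x‖ = 1)
    (hx1 : 1 + x ≠ 0) : ‖E α m x‖ ≤ E0 α m / (‖1 + x‖ / 2) := by
  have hv : 0 < ‖1 + x‖ := norm_pos_iff.2 hx1
  have hv2 := norm_one_add_le_two hx
  refine (norm_E_le h0 hm hx hx1).trans ?_
  unfold E0
  rw [div_eq_mul_inv, ← intervalIntegral.integral_mul_const]
  apply intervalIntegral.integral_mono_on zero_le_one (int_W_inv h0 hm hv)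
  · exact (int_W_inv h0 hm two_pos).mul_const _
  · intro t ht
    have h1 := W_nonneg α m ht.1 ht.2
    rw [mul_assoc, ← mul_inv]
    apply mul_le_mul_of_nonneg_left _ h1
    have h2 := ht.1
    apply inv_anti₀ (by rw [sqrtQ_two ht.1]; positivity)
    rw [sqrtQ_two ht.1, mul_comm]
    apply Real.le_sqrt_of_sq_le
    exact Q_lower ht.1 hv.le hv2

lemma E_le_E1 {α : ℝ} (h1 : 1 ≤ α) {m : ℕ} (hm : α < m) {x : ℂ} (hx : ‖x‖ = 1)
    (hx1 : 1 + x ≠ 0) :
    ‖E α m x‖ ≤ Real.Gamma ((m : ℝ) + 1 - α) * Real.Gamma α / Real.Gamma ((m : ℝ) + 1) := by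
  have h0 : 0 < α := by linarith
  have hv : 0 < ‖1 + x‖ := norm_pos_iff.2 hx1
  refine (norm_E_le h0 hm hx hx1).trans ?_
  have h := beta_int ((m : ℝ) + 1 - α) α (by linarith) h0
  rw [show (m : ℝ) + 1 - α + α = (m : ℝ) + 1 by ring] at h
  rw [← h]
  apply intervalIntegral.integral_mono_on zero_le_one (int_W_inv h0 hm hv)
  · apply Continuous.intervalIntegrable
    exact (Real.continuous_rpow_const (by linarith)).mul
      ((Real.continuous_rpow_const (by linarith)).comp (continuous_const.sub continuous_id))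
  · intro t ht
    rw [show (m : ℝ) + 1 - α - 1 = m - α by ring]
    rcases ht.2.eq_or_lt with h2 | h2
    · rw [h2]
      unfold W
      rw [sub_self, Real.zero_rpow h0.ne']
      simp
      positivity
    · have h3 : 0 < 1 - t := by linarith
      unfold W
      rw [mul_assoc]
      apply mul_le_mul_of_nonneg_left _ (Real.rpow_nonneg ht.1 _)
      rw [Real.rpow_sub_one h3.ne', div_eq_mul_inv]
      apply mul_le_mul_of_nonneg_left _ (Real.rpow_nonneg h3.le _)
      apply inv_anti₀ h3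
      apply Real.le_sqrt_of_sq_le
      unfold Q
      have := mul_nonneg ht.1 (sq_nonneg ‖1 + x‖)
      linarith

lemma e1_le {α : ℝ} (h1 : 1 ≤ α) {m : ℕ} (hm : α < m) {x : ℂ} (hx : ‖x‖ = 1)
    (hx1 : 1 + x ≠ 0) :
    |kap α m| * ‖E α m x‖ ≤ |c α (m + 1)| * ((m : ℝ) + 1) / α := by
  have h0 : 0 < α := by linarith
  refine (mul_le_mul_of_nonneg_left (E_le_E1 h1 hm hx hx1) (abs_nonneg _)).trans ?_
  rw [← kap_mul_mu h0 hm, abs_mul, abs_of_pos (mu_pos h0 hm 0), mu_eq h0 hm]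
  push_cast
  rw [add_zero]
  have hm0 : (0:ℝ) < m := by linarith
  have e1 : (m : ℝ) + 2 = ((m:ℝ) + 1) + 1 := by ring
  have n1 : (m : ℝ) + 1 ≠ 0 := by positivity
  rw [Real.Gamma_add_one h0.ne', e1, Real.Gamma_add_one n1]
  have g1 : Real.Gamma ((m : ℝ) + 1) ≠ 0 := (Real.Gamma_pos_of_pos (by positivity)).ne'
  apply le_of_eq
  field_simp

end Pool.Agent.H329R3.Br
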