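import Mathlib
import Pool.Agent.H329R3.Br4

set_option autoImplicit false
open Filter Topology MeasureTheory Set

namespace Pool.Agent.H329R3.Br

lemma real_good {B c e0 X : ℝ} (hB : 2 ≤ B) (hc : 0 < c) (hc1 : c ≤ 1) (he : 0 ≤ e0)
    (he1 : e0 ≤ 1 / 24) (hX : X ≤ e0 / c) (hX1 : X ≤ 1 / 6) : B * c + X ≤ B + e0 := by
  rcases le_total (1 / 24) c with h | h
  · rw [le_div_iff₀ hc] at hX
    have h1 : X * c ≤ e0 := hX
    -- B (1-c) ≥ 2 (1-c) ≥ e0 (1-c)/c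
    have h2 : c * (B * c + X) ≤ c * (B + e0) := by
      nlinarith [mul_nonneg (sub_nonneg.2 hc1) (by linarith : 0 ≤ c - e0),
        mul_nonneg (mul_nonneg hc.le (sub_nonneg.2 hc1)) (sub_nonneg.2 hB)]
    exact le_of_mul_le_mul_left h2 hc
  · nlinarith

lemma real_bad_far {B c e0 X : ℝ} (hB : 2 ≤ B) (hc : 0 < c) (hc1 : c ≤ 19 / 20) (he : 0 ≤ e0)
    (he1 : e0 ≤ 1 / 24) (hX : X ≤ e0 / c) (hX1 : X ≤ 1 / 6) : B * c + X ≤ B - e0 := by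
  rcases le_total (1 / 20) c with h | h
  · rw [le_div_iff₀ hc] at hX
    have h1 : X * c ≤ e0 := hX
    have h2 : c * (B * c + X) ≤ c * (B - e0) := by
      have h3 : e0 * (1 + c) ≤ (1 / 24) * (1 + c) := mul_le_mul_of_nonneg_right he1 (by linarith)
      have h4 : (1 / 24) * (1 + c) ≤ 2 * (c * (1 - c)) := by
        nlinarith [mul_nonneg (sub_nonneg.2 h) (sub_nonneg.2 hc1)]
      have h5 : 2 * (c * (1 - c)) ≤ B * (c * (1 - c)) :=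
        mul_le_mul_of_nonneg_right hB (mul_nonneg hc.le (by linarith))
      nlinarith
    exact le_of_mul_le_mul_left h2 hc
  · nlinarith

lemma aux2 {B c e0 a : ℝ} (hB2 : 2 ≤ B) (hc : 19 / 20 < c) (he1 : e0 ≤ 1 / 24)
    (ha0 : 0 ≤ a) (ha : a ≤ B * c) :
    (B - B * c) * (B + B * c - 2 * e0) ≤ (B - a) * (B + a - 2 * e0) := by
  have h1 : 2 * (19 / 20) ≤ B * c := mul_le_mul hB2 hc.le (by norm_num) (by linarith)
  have : 0 ≤ (B * c - a) * (B * c + a - 2 * e0) :=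
    mul_nonneg (by linarith) (by linarith)
  linarith

lemma aux3 {B c e0 : ℝ} (hB2 : 2 ≤ B) (hc : 19 / 20 < c) (hc1 : c ≤ 1) (he : 0 ≤ e0) :
    (B ^ 2 - 2 * e0 * B) * (1 - c ^ 2) ≤ (B - B * c) * (B + B * c - 2 * e0) := by
  have : 0 ≤ 2 * e0 * B * (c * (1 - c)) := by
    have : 0 ≤ 1 - c := by linarith
    positivity
  linarith

lemma aux4 {B c a P T : ℝ} (hB2 : 2 ≤ B) (hc : 19 / 20 < c) (ha : a ≤ B * c) (hP0 : 0 ≤ P)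
    (hP : P * c ^ 4 ≤ 2 * T * (1 - c ^ 2)) :
    2 * a * P * c ^ 3 ≤ 4 * B * T * (1 - c ^ 2) := by
  have h1 : a * P ≤ B * c * P := mul_le_mul_of_nonneg_right ha hP0
  have h2 : (a * P) * c ^ 3 ≤ (B * c * P) * c ^ 3 :=
    mul_le_mul_of_nonneg_right h1 (by positivity)
  have h3 : B * (P * c ^ 4) ≤ B * (2 * T * (1 - c ^ 2)) :=
    mul_le_mul_of_nonneg_left hP (by linarith)
  linarith

lemma c3_bound {c : ℝ} (hc : 19 / 20 < c) : 857 / 1000 ≤ c ^ 3 := by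
  have : (19 / 20 : ℝ) ^ 3 ≤ c ^ 3 := pow_le_pow_left₀ (by norm_num) hc.le 3
  refine le_trans ?_ this
  norm_num

lemma c2_bound {c : ℝ} (hc : 19 / 20 < c) : 902 / 1000 ≤ c ^ 2 := by
  have : (19 / 20 : ℝ) ^ 2 ≤ c ^ 2 := pow_le_pow_left₀ (by norm_num) hc.le 2
  refine le_trans ?_ this
  norm_num

lemma aux5 {B c a P T : ℝ} (hB2 : 2 ≤ B) (hc : 19 / 20 < c) (ha0 : 0 ≤ a) (ha : a ≤ B * c)
    (hP0 : 0 ≤ P) (hP : P * c ^ 4 ≤ 2 * T * (1 - c ^ 2)) :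
    2 * a * P ≤ 4 * B * T * (1 - c ^ 2) * (1167 / 1000) := by
  have h1 := aux4 hB2 hc ha hP0 hP
  have h2 := c3_bound hc
  have h3 : 0 ≤ 2 * a * P := by positivity
  have h4 : 1 ≤ c ^ 3 * (1167 / 1000) := by linarith
  have h5 : 2 * a * P * 1 ≤ 2 * a * P * (c ^ 3 * (1167 / 1000)) := mul_le_mul_of_nonneg_left h4 h3
  linarith

lemma aux6 {c e0 nh : ℝ} (hc : 19 / 20 < c) (hc1 : c ≤ 1) (he : 0 ≤ e0) (hnh0 : 0 ≤ nh)
    (hnh : nh ≤ e0 / c) :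
    nh ^ 2 - e0 ^ 2 ≤ e0 ^ 2 * (1 - c ^ 2) * (1109 / 1000) := by
  have hc0 : 0 < c := by linarith
  have h0 : nh ^ 2 ≤ (e0 / c) ^ 2 := pow_le_pow_left₀ hnh0 hnh 2
  have h2 : (e0 / c) ^ 2 - e0 ^ 2 = e0 ^ 2 * (1 - c ^ 2) / c ^ 2 := by
    field_simp
  have hs0 : 0 ≤ 1 - c ^ 2 := by
    have : c ^ 2 ≤ 1 := pow_le_one₀ hc0.le hc1
    linarith
  have h3 : e0 ^ 2 * (1 - c ^ 2) / c ^ 2 ≤ e0 ^ 2 * (1 - c ^ 2) * (1109 / 1000) := by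
    rw [div_le_iff₀ (by positivity)]
    have h4 : 0 ≤ e0 ^ 2 * (1 - c ^ 2) := by positivity
    have h6 := c2_bound hc
    have h5 : 1 ≤ (1109 / 1000) * c ^ 2 := by linarith
    calc e0 ^ 2 * (1 - c ^ 2) = e0 ^ 2 * (1 - c ^ 2) * 1 := (mul_one _).symm
      _ ≤ e0 ^ 2 * (1 - c ^ 2) * ((1109 / 1000) * c ^ 2) := mul_le_mul_of_nonneg_left h5 h4
      _ = _ := by ring
  linarith

lemma aux7 {B e0 T β : ℝ} (hβ0 : 0 < β) (hB : 2 + 138 / 100 * β ≤ B) (he : 0 ≤ e0)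
    (he1 : e0 ≤ 1 / 24) (hT : T ≤ 49 / 24 * (β * (1 - β))) :
    4 * B * T * (1167 / 1000) + e0 ^ 2 * (1109 / 1000) ≤ B ^ 2 - 2 * e0 * B := by
  have hB2 : 2 ≤ B := by linarith
  have h2 : 4 * T * (1167 / 1000) + 2 * e0 + 1 / 800 ≤ B := by
    nlinarith [sq_nonneg (β - 43 / 100)]
  have h3 : e0 ^ 2 * (1109 / 1000) ≤ B * (1 / 800) := by
    have : e0 ^ 2 ≤ (1 / 24) ^ 2 := pow_le_pow_left₀ he he1 2
    norm_num at this
    linarith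
  have h4 := mul_le_mul_of_nonneg_left h2 (by linarith : 0 ≤ B)
  linarith

/-- near `x = 1` in the bad sign case. `P` bounds `e0 * (1 - Re h / e0)`. -/
lemma real_bad_near {B c e0 a Rh nh P T β : ℝ} (hβ0 : 0 < β)
    (hB : 2 + 138 / 100 * β ≤ B) (hc : 19 / 20 < c) (hc1 : c ≤ 1) (he : 0 ≤ e0)
    (he1 : e0 ≤ 1 / 24) (ha0 : 0 ≤ a) (ha : a ≤ B * c) (hRh : e0 - P ≤ Rh) (hnh0 : 0 ≤ nh)
    (hnh : nh ≤ e0 / c) (hT : T ≤ 49 / 24 * (β * (1 - β))) (hP0 : 0 ≤ P)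
    (hP : P * c ^ 4 ≤ 2 * T * (1 - c ^ 2)) :
    a ^ 2 - 2 * a * Rh + nh ^ 2 ≤ (B - e0) ^ 2 := by
  have hB2 : 2 ≤ B := by linarith
  have hc0 : 0 < c := by linarith
  have hs0 : 0 ≤ 1 - c ^ 2 := by
    have : c ^ 2 ≤ 1 := pow_le_one₀ hc0.le hc1
    linarith
  have s1 : 2 * a * (e0 - P) ≤ 2 * a * Rh := mul_le_mul_of_nonneg_left hRh (by positivity)
  have s2 := aux2 hB2 hc he1 ha0 ha
  have s3 := aux3 hB2 hc hc1 he
  have s5 := aux5 hB2 hc ha0 ha hP0 hP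
  have s6 := aux6 hc hc1 he hnh0 hnh
  have s7 := aux7 hβ0 hB he he1 hT
  have s8 := mul_le_mul_of_nonneg_right s7 hs0
  linarith

end Pool.Agent.H329R3.Br
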