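import Mathlib
import Pool.Agent.H329R3.Br5

set_option autoImplicit false
open Filter Topology MeasureTheory Set

namespace Pool.Agent.H329R3.Br

lemma one_add_exp (θ : ℝ) :
    1 + Complex.exp (θ * Complex.I) =
      ((2 * Real.cos (θ / 2) : ℝ) : ℂ) * Complex.exp ((θ / 2 : ℝ) * Complex.I) := by
  have h1 : Complex.exp (θ * Complex.I) =
      Complex.exp ((θ / 2 : ℝ) * Complex.I) * Complex.exp ((θ / 2 : ℝ) * Complex.I) := by
    rw [← Complex.exp_add]; congr 1; push_cast; ring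
  have h2 : ((2 * Real.cos (θ / 2) : ℝ) : ℂ) =
      Complex.exp ((θ / 2 : ℝ) * Complex.I) + Complex.exp (-((θ / 2 : ℝ) * Complex.I)) := by
    push_cast
    rw [Complex.cos]
    ring_nf
  rw [h2, add_mul, ← Complex.exp_add, ← Complex.exp_add, h1, ← Complex.exp_add]
  rw [neg_add_cancel, Complex.exp_zero]
  ring

lemma norm_one_add_exp {θ : ℝ} (h1 : -Real.pi < θ) (h2 : θ < Real.pi) :
    ‖1 + Complex.exp (θ * Complex.I)‖ = 2 * Real.cos (θ / 2) := by
  rw [one_add_exp, norm_mul, Complex.norm_exp_ofReal_mul_I, mul_one, Complex.norm_real,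
    Real.norm_of_nonneg]
  have : 0 ≤ Real.cos (θ / 2) := Real.cos_nonneg_of_neg_pi_div_two_le_of_le (by linarith) (by linarith)
  positivity

lemma cos_half_pos {θ : ℝ} (h1 : -Real.pi < θ) (h2 : θ < Real.pi) : 0 < Real.cos (θ / 2) :=
  Real.cos_pos_of_mem_Ioo ⟨by linarith, by linarith⟩

lemma cpow_one_add_exp (α : ℝ) {θ : ℝ} (h1 : -Real.pi < θ) (h2 : θ < Real.pi) :
    (1 + Complex.exp (θ * Complex.I)) ^ (α : ℂ) =
      (((2 * Real.cos (θ / 2)) ^ α : ℝ) : ℂ) * Complex.exp ((α * θ / 2 : ℝ) * Complex.I) := by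
  have hc := cos_half_pos h1 h2
  have hv : 0 < 2 * Real.cos (θ / 2) := by positivity
  have e1 : 1 + Complex.exp (θ * Complex.I) =
      Complex.exp ((Real.log (2 * Real.cos (θ / 2)) : ℝ) + (θ / 2 : ℝ) * Complex.I) := by
    rw [Complex.exp_add, ← Complex.ofReal_exp, Real.exp_log hv, one_add_exp]
  have hne : 1 + Complex.exp (θ * Complex.I) ≠ 0 := by rw [e1]; exact Complex.exp_ne_zero _
  rw [Complex.cpow_def_of_ne_zero hne, e1, Complex.log_exp]
  · rw [Real.rpow_def_of_pos hv, Complex.ofReal_exp, ← Complex.exp_add]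
    congr 1
    push_cast
    ring
  · simp; linarith
  · simp; linarith

lemma norm_sub_sq (a : ℝ) (h : ℂ) : ‖(a : ℂ) - h‖ ^ 2 = a ^ 2 - 2 * a * h.re + ‖h‖ ^ 2 := by
  rw [Complex.sq_norm, Complex.sq_norm, Complex.normSq_apply, Complex.normSq_apply]
  simp
  ring

lemma norm_p_eq {α : ℝ} (h0 : 0 < α) {m : ℕ} (hm : α < m) {θ : ℝ} (h1 : -Real.pi < θ)
    (h2 : θ < Real.pi) :
    ‖p α m (Complex.exp (θ * Complex.I))‖ =
      ‖(((2 * Real.cos (θ / 2)) ^ α : ℝ) : ℂ) - kap α m *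
        (Complex.exp (((m + 1 - α / 2) * θ : ℝ) * Complex.I) * E α m (Complex.exp (θ * Complex.I)))‖ := by
  have hx : ‖Complex.exp (θ * Complex.I)‖ = 1 := Complex.norm_exp_ofReal_mul_I θ
  have hc := cos_half_pos h1 h2
  have hx1 : 1 + Complex.exp (θ * Complex.I) ≠ 0 := by
    apply norm_pos_iff.1
    rw [norm_one_add_exp h1 h2]; positivity
  rw [p_repr h0 hm hx hx1 (Or.inl (re_pos hx hx1)), cpow_one_add_exp α h1 h2]
  have e1 : Complex.exp (θ * Complex.I) ^ (m + 1) =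
      Complex.exp ((α * θ / 2 : ℝ) * Complex.I) *
      Complex.exp (((m + 1 - α / 2) * θ : ℝ) * Complex.I) := by
    rw [← Complex.exp_nat_mul, ← Complex.exp_add]
    congr 1
    push_cast
    ring
  rw [e1]
  have e2 : (((2 * Real.cos (θ / 2)) ^ α : ℝ) : ℂ) * Complex.exp ((α * θ / 2 : ℝ) * Complex.I) -
      Complex.exp ((α * θ / 2 : ℝ) * Complex.I) *
      Complex.exp (((m + 1 - α / 2) * θ : ℝ) * Complex.I) * kap α m *
        E α m (Complex.exp (θ * Complex.I)) =
      Complex.exp ((α * θ / 2 : ℝ) * Complex.I) *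
      ((((2 * Real.cos (θ / 2)) ^ α : ℝ) : ℂ) - kap α m *
        (Complex.exp (((m + 1 - α / 2) * θ : ℝ) * Complex.I) *
          E α m (Complex.exp (θ * Complex.I)))) := by ring
  rw [e2, norm_mul, Complex.norm_exp_ofReal_mul_I, one_mul]

lemma re_point {M : ℝ} (hM : 1 / 2 ≤ M) {θ : ℝ} (h1 : -Real.pi < θ) (h2 : θ < Real.pi) {t : ℝ}
    (ht : 0 ≤ t) :
    (1 + t)⁻¹ * (1 - M ^ 2 * θ ^ 2 / (2 * Real.cos (θ / 2) ^ 2)) ≤
      (Complex.exp ((M * θ : ℝ) * Complex.I) / (1 + t * Complex.exp (θ * Complex.I))).re := by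
  have hx : ‖Complex.exp (θ * Complex.I)‖ = 1 := Complex.norm_exp_ofReal_mul_I θ
  have hc := cos_half_pos h1 h2
  have hc1 : Real.cos (θ / 2) ≤ 1 := Real.cos_le_one _
  have hv := norm_one_add_exp h1 h2
  set c := Real.cos (θ / 2) with hcdef
  have hQ : Complex.normSq (1 + t * Complex.exp (θ * Complex.I)) = Q t (2 * c) := by
    rw [← Complex.sq_norm, norm_sq_one_add hx, hv, Q]
  have hQpos : 0 < Q t (2 * c) := Q_pos ht (by positivity)
  have hQlow : (c * (1 + t)) ^ 2 ≤ Q t (2 * c) := by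
    have := Q_lower (t := t) (v := 2 * c) ht (by positivity) (by linarith)
    rwa [show 2 * c / 2 * (1 + t) = c * (1 + t) by ring] at this
  have hQup : Q t (2 * c) ≤ (1 + t) ^ 2 := by
    unfold Q
    have : c ^ 2 ≤ 1 := pow_le_one₀ hc.le hc1
    nlinarith
  have hre : (Complex.exp ((M * θ : ℝ) * Complex.I) / (1 + t * Complex.exp (θ * Complex.I))).re =
      (Real.cos (M * θ) + t * Real.cos (M * θ - θ)) / Q t (2 * c) := by
    rw [Complex.div_re, hQ, Complex.exp_ofReal_mul_I_re, Complex.exp_ofReal_mul_I_im]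
    have e1 : (1 + (t:ℂ) * Complex.exp (θ * Complex.I)).re = 1 + t * Real.cos θ := by
      rw [Complex.add_re, Complex.re_ofReal_mul, Complex.exp_ofReal_mul_I_re]; simp
    have e2 : (1 + (t:ℂ) * Complex.exp (θ * Complex.I)).im = t * Real.sin θ := by
      rw [Complex.add_im, Complex.im_ofReal_mul, Complex.exp_ofReal_mul_I_im]; simp
    rw [e1, e2, Real.cos_sub]
    ring
  rw [hre]
  obtain ⟨q, hq⟩ : ∃ q, q = M ^ 2 * θ ^ 2 / 2 := ⟨_, rfl⟩
  have hq0 : 0 ≤ q := by rw [hq]; positivity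
  have hcos1 : 1 - q ≤ Real.cos (M * θ) := by
    have := Real.one_sub_sq_div_two_le_cos (x := M * θ)
    rw [hq]; convert! this using 2; ring
  have hcos2 : 1 - q ≤ Real.cos (M * θ - θ) := by
    have := Real.one_sub_sq_div_two_le_cos (x := M * θ - θ)
    refine le_trans ?_ this
    rw [hq]
    have : (M * θ - θ) ^ 2 ≤ M ^ 2 * θ ^ 2 := by
      have : (M * θ - θ) ^ 2 = (M - 1) ^ 2 * θ ^ 2 := by ring
      rw [this]
      apply mul_le_mul_of_nonneg_right _ (sq_nonneg θ)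
      nlinarith
    linarith
  have hnum : (1 + t) * (1 - q) ≤ Real.cos (M * θ) + t * Real.cos (M * θ - θ) := by
    nlinarith [mul_le_mul_of_nonneg_left hcos2 ht]
  have hgoal : (1 + t)⁻¹ * (1 - M ^ 2 * θ ^ 2 / (2 * c ^ 2)) ≤ ((1 + t) * (1 - q)) / Q t (2 * c) := by
    have e3 : M ^ 2 * θ ^ 2 / (2 * c ^ 2) = q / c ^ 2 := by rw [hq]; field_simp
    rw [e3, le_div_iff₀ hQpos]
    have h1t : 0 < 1 + t := by linarith
    have hcc : 0 < c ^ 2 := by positivity
    have hcc1 : c ^ 2 ≤ 1 := pow_le_one₀ hc.le hc1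
    -- (1 - q/c²) Q ≤ (1+t)² (1-q)
    have key : (1 - q / c ^ 2) * Q t (2 * c) ≤ (1 + t) ^ 2 * (1 - q) := by
      have hqc : q / c ^ 2 * c ^ 2 = q := by field_simp
      have hqc0 : 0 ≤ q / c ^ 2 := by positivity
      rcases le_total 0 (1 - q / c ^ 2) with h | h
      · calc (1 - q / c ^ 2) * Q t (2 * c) ≤ (1 - q / c ^ 2) * (1 + t) ^ 2 :=
              mul_le_mul_of_nonneg_left hQup h
          _ ≤ (1 - q) * (1 + t) ^ 2 := by
              apply mul_le_mul_of_nonneg_right _ (by positivity)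
              nlinarith
          _ = _ := by ring
      · calc (1 - q / c ^ 2) * Q t (2 * c) ≤ (1 - q / c ^ 2) * (c * (1 + t)) ^ 2 :=
              mul_le_mul_of_nonpos_left hQlow h
          _ = (c ^ 2 - q) * (1 + t) ^ 2 := by
              rw [mul_pow]; linear_combination (-(1 + t) ^ 2) * hqc
          _ ≤ (1 - q) * (1 + t) ^ 2 := by
              apply mul_le_mul_of_nonneg_right _ (by positivity)
              linarith
          _ = _ := by ring
    calc (1 + t)⁻¹ * (1 - q / c ^ 2) * Q t (2 * c) = (1 + t)⁻¹ * ((1 - q / c ^ 2) * Q t (2 * c)) := by ring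
      _ ≤ (1 + t)⁻¹ * ((1 + t) ^ 2 * (1 - q)) := mul_le_mul_of_nonneg_left key (by positivity)
      _ = (1 + t) * (1 - q) := by field_simp
  exact hgoal.trans (div_le_div_of_nonneg_right hnum hQpos.le)

lemma re_E {α : ℝ} (h0 : 0 < α) {m : ℕ} (hm : α < m) {M : ℝ} (hM : 1 / 2 ≤ M) {θ : ℝ}
    (h1 : -Real.pi < θ) (h2 : θ < Real.pi) :
    E0 α m * (1 - M ^ 2 * θ ^ 2 / (2 * Real.cos (θ / 2) ^ 2)) ≤
      (Complex.exp ((M * θ : ℝ) * Complex.I) * E α m (Complex.exp (θ * Complex.I))).re := by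
  have hx : ‖Complex.exp (θ * Complex.I)‖ = 1 := Complex.norm_exp_ofReal_mul_I θ
  have hc := cos_half_pos h1 h2
  have hx1 : 1 + Complex.exp (θ * Complex.I) ≠ 0 := by
    apply norm_pos_iff.1
    rw [norm_one_add_exp h1 h2]; positivity
  have hint := (E_int h0 hm hx hx1 0).intervalIntegrable (μ := volume)
  simp only [pow_zero, mul_one] at hint
  unfold E0 E
  rw [← intervalIntegral.integral_const_mul, ← intervalIntegral.integral_mul_const]
  have hint2 := hint.const_mul (Complex.exp ((M * θ : ℝ) * Complex.I))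
  have hre := Complex.reCLM.intervalIntegral_comp_comm hint2
  simp only [Complex.reCLM_apply] at hre
  rw [← hre]
  apply intervalIntegral.integral_mono_on zero_le_one
  · exact (int_W_inv h0 hm two_pos).mul_const _
  · have h3 := Complex.reCLM.integrable_comp (hint2.1)
    constructor
    · exact Complex.reCLM.integrable_comp hint2.1
    · exact Complex.reCLM.integrable_comp hint2.2
  · intro t ht
    have h3 := re_point hM h1 h2 ht.1
    have h4 := W_nonneg α m ht.1 ht.2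
    rw [sqrtQ_two ht.1]
    have e1 : Complex.exp ((M * θ : ℝ) * Complex.I) *
        ((W α m t : ℂ) / (1 + t * Complex.exp (θ * Complex.I))) =
        (W α m t : ℂ) * (Complex.exp ((M * θ : ℝ) * Complex.I) /
          (1 + t * Complex.exp (θ * Complex.I))) := by ring
    rw [e1, Complex.re_ofReal_mul]
    calc W α m t * (1 + t)⁻¹ * (1 - M ^ 2 * θ ^ 2 / (2 * Real.cos (θ / 2) ^ 2)) =
        W α m t * ((1 + t)⁻¹ * (1 - M ^ 2 * θ ^ 2 / (2 * Real.cos (θ / 2) ^ 2))) := by ring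
      _ ≤ _ := mul_le_mul_of_nonneg_left h3 h4

end Pool.Agent.H329R3.Br
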