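import Mathlib
import Pool.Agent.H329R3.Br6

set_option autoImplicit false
open Filter Topology MeasureTheory Set

namespace Pool.Agent.H329R3.Br

lemma two_rpow_ge {β : ℝ} {α : ℝ} (h0 : 0 ≤ β) (h : 1 + β ≤ α) : 2 + 138 / 100 * β ≤ (2:ℝ) ^ α := by
  have h1 : (2:ℝ) ^ (1 + β) ≤ 2 ^ α := Real.rpow_le_rpow_of_exponent_le one_le_two h
  refine le_trans ?_ h1
  rw [Real.rpow_add two_pos, Real.rpow_one, Real.rpow_def_of_pos two_pos]
  have h2 := Real.add_one_le_exp (Real.log 2 * β)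
  have h3 := Real.log_two_gt_d9
  nlinarith

lemma theta_bound {θ : ℝ} (h1 : -Real.pi < θ) (h2 : θ < Real.pi) :
    θ ^ 2 * Real.cos (θ / 2) ^ 2 ≤ 4 * (1 - Real.cos (θ / 2) ^ 2) := by
  have key : ∀ φ : ℝ, 0 ≤ φ → φ < Real.pi → φ * Real.cos (φ / 2) ≤ 2 * Real.sin (φ / 2) := by
    intro φ hφ hφ2
    rcases hφ.eq_or_lt with h | h
    · rw [← h]; simp
    · have hc : 0 < Real.cos (φ / 2) := Real.cos_pos_of_mem_Ioo ⟨by linarith, by linarith⟩
      have h3 := Real.lt_tan (x := φ / 2) (by linarith) (by linarith)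
      rw [Real.tan_eq_sin_div_cos, lt_div_iff₀ hc] at h3
      linarith
  have h4 : ∀ φ : ℝ, 0 ≤ φ → φ < Real.pi →
      φ ^ 2 * Real.cos (φ / 2) ^ 2 ≤ 4 * (1 - Real.cos (φ / 2) ^ 2) := by
    intro φ hφ hφ2
    have h5 := key φ hφ hφ2
    have hc : 0 < Real.cos (φ / 2) := Real.cos_pos_of_mem_Ioo ⟨by linarith, by linarith⟩
    have h6 := pow_le_pow_left₀ (by positivity) h5 2
    have h7 := Real.sin_sq_add_cos_sq (φ / 2)
    nlinarith
  rcases le_total 0 θ with h | h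
  · exact h4 θ h h2
  · have := h4 (-θ) (by linarith) (by linarith)
    rw [show -θ / 2 = -(θ / 2) by ring, Real.cos_neg, neg_sq] at this
    exact this

theorem case_gt_one (N : ℕ) {β : ℝ} (hβ0 : 0 < β) (hβ1 : β < 1) {m : ℕ} (hNm : N + 3 ≤ m) {x : ℂ}
    (hx : ‖x‖ = 1) (hx1 : 1 + x ≠ 0) :
    ‖p ((N : ℝ) + 1 + β) m x‖ ≤ S ((N : ℝ) + 1 + β) m := by
  set α : ℝ := (N : ℝ) + 1 + β with hα
  have hN0 : (0:ℝ) ≤ N := Nat.cast_nonneg N
  have hα1 : 1 ≤ α := by linarith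
  have h0 : 0 < α := by linarith
  have hNm' : (N:ℝ) + 3 ≤ m := by exact_mod_cast hNm
  have hm : α < m := by linarith
  have hm3 : (3:ℝ) ≤ m := by linarith
  have hβ : 0 ≤ β * (1 - β) := mul_nonneg hβ0.le (by linarith)
  have hβ4 : β * (1 - β) ≤ 1 / 4 := by nlinarith [sq_nonneg (β - 1 / 2)]
  have hK : |c α (m + 1)| ≤ 2 * (β * (1 - β)) / ((m : ℝ) * (m + 1)) := by
    rw [hα]; exact c_abs_bound hβ0 hβ1 N m hNm
  have hK2 : |c α (m + 1)| * ((m : ℝ) * (m + 1)) ≤ 2 * (β * (1 - β)) := by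
    rwa [le_div_iff₀ (by positivity)] at hK
  have hK0 : 0 ≤ |c α (m + 1)| := abs_nonneg _
  -- parameters
  set κ := kap α m with hκ
  set e0 := |κ| * E0 α m with he0
  have he0n : 0 ≤ e0 := mul_nonneg (abs_nonneg _) E0_nonneg
  have he0K : e0 ≤ |c α (m + 1)| := e0_le h0 hm
  have hmm : (12:ℝ) ≤ (m:ℝ) * (m + 1) := by nlinarith
  have he24 : e0 ≤ 1 / 24 := by
    have : |c α (m + 1)| * 12 ≤ |c α (m + 1)| * ((m : ℝ) * (m + 1)) :=
      mul_le_mul_of_nonneg_left hmm hK0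
    linarith
  have hv : 0 < ‖1 + x‖ := norm_pos_iff.2 hx1
  have hv2 := norm_one_add_le_two hx
  obtain ⟨cc, hcc⟩ : ∃ cc : ℝ, cc = ‖1 + x‖ / 2 := ⟨_, rfl⟩
  have hc0 : 0 < cc := by rw [hcc]; positivity
  have hc1 : cc ≤ 1 := by rw [hcc]; linarith
  have hv' : ‖1 + x‖ = 2 * cc := by rw [hcc]; ring
  set X := |κ| * ‖E α m x‖ with hX
  have hX1 : X ≤ e0 / cc := by
    have := mul_le_mul_of_nonneg_left (E_le_div h0 hm hx hx1) (abs_nonneg κ)
    rw [← hcc] at this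
    rw [hX, he0, mul_div_assoc]
    exact this
  have hX2 : X ≤ 1 / 6 := by
    have h1 := e1_le hα1 hm hx hx1
    refine h1.trans ?_
    rw [div_le_iff₀ h0]
    have h2 : |c α (m + 1)| * ((m:ℝ) + 1) * m ≤ 1 / 6 * m := by nlinarith
    have h3 : |c α (m + 1)| * ((m:ℝ) + 1) ≤ 1 / 6 := le_of_mul_le_mul_right h2 (by linarith)
    nlinarith
  have hB := two_rpow_ge (α := α) hβ0.le (by linarith)
  have hB2 : (2:ℝ) ≤ 2 ^ α := by nlinarith
  have ha0 : 0 ≤ (2 * cc) ^ α := Real.rpow_nonneg (by positivity) _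
  have ha : (2 * cc) ^ α ≤ 2 ^ α * cc := by
    rw [Real.mul_rpow (by norm_num) hc0.le]
    apply mul_le_mul_of_nonneg_left _ (by positivity)
    have := Real.rpow_le_rpow_of_exponent_ge hc0 hc1 hα1
    rwa [Real.rpow_one] at this
  have hS : S α m = 2 ^ α - κ * E0 α m := by
    rw [S_eq h0 hm, Phi, E0]; ring
  -- crude bound
  have hcrude : ‖p α m x‖ ≤ (2 * cc) ^ α + X := by
    rw [p_repr h0 hm hx hx1 (Or.inl (re_pos hx hx1))]
    refine (norm_sub_le _ _).trans ?_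
    rw [norm_mul, norm_mul, norm_pow, hx, one_pow, one_mul, Complex.norm_cpow_real,
      Complex.norm_real, Real.norm_eq_abs, hv']
  rcases le_total κ 0 with hs | hs
  · -- good sign
    have : S α m = 2 ^ α + e0 := by rw [hS, he0, abs_of_nonpos hs]; ring
    rw [this]
    have := real_good hB2 hc0 hc1 he0n he24 hX1 hX2
    linarith
  · have hS' : S α m = 2 ^ α - e0 := by rw [hS, he0, abs_of_nonneg hs]
    rw [hS']
    rcases le_or_gt cc (19 / 20) with hfar | hnear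
    · have := real_bad_far hB2 hc0 hfar he0n he24 hX1 hX2
      linarith
    · -- near
      obtain ⟨θ, hθ1, hθ2, hxe⟩ : ∃ θ : ℝ, -Real.pi < θ ∧ θ < Real.pi ∧
          x = Complex.exp (θ * Complex.I) := by
        refine ⟨x.arg, Complex.neg_pi_lt_arg x, ?_, ?_⟩
        · refine lt_of_le_of_ne (Complex.arg_le_pi x) ?_
          intro h
          rw [Complex.arg_eq_pi_iff] at h
          apply hx1
          have h3 : x = (x.re : ℂ) := by
            apply Complex.ext <;> simp [h.2]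
          rw [h3, Complex.norm_real, Real.norm_eq_abs, abs_of_neg h.1] at hx
          rw [h3]
          have : x.re = -1 := by linarith
          rw [this]; simp
        · have := Complex.norm_mul_exp_arg_mul_I x
          rw [hx] at this
          simpa using this.symm
      have hcθ : cc = Real.cos (θ / 2) := by
        rw [hcc, hxe, norm_one_add_exp hθ1 hθ2]; ring
      obtain ⟨M, hM⟩ : ∃ M : ℝ, M = (m:ℝ) + 1 - α / 2 := ⟨_, rfl⟩
      have hM1 : 1 / 2 ≤ M := by rw [hM]; linarith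
      have hM2 : M ≤ m + 1 / 2 := by rw [hM]; linarith
      obtain ⟨h, hh⟩ : ∃ h : ℂ, h = (κ : ℂ) * (Complex.exp ((M * θ : ℝ) * Complex.I) *
        E α m (Complex.exp (θ * Complex.I))) := ⟨_, rfl⟩
      have hpn : ‖p α m x‖ = ‖(((2 * cc) ^ α : ℝ) : ℂ) - h‖ := by
        rw [hh, hxe, norm_p_eq h0 hm hθ1 hθ2, ← hcθ, ← hM]
      have hnh : ‖h‖ = X := by
        rw [hh, norm_mul, norm_mul, Complex.norm_exp_ofReal_mul_I, one_mul, Complex.norm_real,
          Real.norm_eq_abs, ← hxe]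
      have hRe : e0 - e0 * (M ^ 2 * θ ^ 2 / (2 * cc ^ 2)) ≤ h.re := by
        have h3 := re_E h0 hm hM1 hθ1 hθ2
        rw [← hcθ] at h3
        rw [hh, Complex.re_ofReal_mul]
        have h4 := mul_le_mul_of_nonneg_left h3 hs
        have h5 : κ * (E0 α m * (1 - M ^ 2 * θ ^ 2 / (2 * cc ^ 2))) =
            e0 - e0 * (M ^ 2 * θ ^ 2 / (2 * cc ^ 2)) := by
          rw [he0, abs_of_nonneg hs]; ring
        linarith
      have hT : e0 * M ^ 2 ≤ 49 / 24 * (β * (1 - β)) := by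
        have h3 : M ^ 2 ≤ 49 / 48 * ((m:ℝ) * (m + 1)) := by
          have : M ^ 2 ≤ ((m:ℝ) + 1 / 2) ^ 2 := pow_le_pow_left₀ (by linarith) hM2 2
          nlinarith
        calc e0 * M ^ 2 ≤ |c α (m + 1)| * (49 / 48 * ((m:ℝ) * (m + 1))) :=
              mul_le_mul he0K h3 (by positivity) hK0
          _ = 49 / 48 * (|c α (m + 1)| * ((m:ℝ) * (m + 1))) := by ring
          _ ≤ 49 / 48 * (2 * (β * (1 - β))) := by linarith
          _ = _ := by ring
      have hth := theta_bound hθ1 hθ2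
      rw [← hcθ] at hth
      have hP : e0 * (M ^ 2 * θ ^ 2 / (2 * cc ^ 2)) * cc ^ 4 ≤ 2 * (e0 * M ^ 2) * (1 - cc ^ 2) := by
        have h3 : e0 * (M ^ 2 * θ ^ 2 / (2 * cc ^ 2)) * cc ^ 4 =
            (e0 * M ^ 2) * (θ ^ 2 * cc ^ 2) / 2 := by
          field_simp
        rw [h3]
        have h4 : (e0 * M ^ 2) * (θ ^ 2 * cc ^ 2) ≤ (e0 * M ^ 2) * (4 * (1 - cc ^ 2)) :=
          mul_le_mul_of_nonneg_left hth (by positivity)
        linarith
      have hP0 : 0 ≤ e0 * (M ^ 2 * θ ^ 2 / (2 * cc ^ 2)) := by positivity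
      have hnh1 : ‖h‖ ≤ e0 / cc := by rw [hnh]; exact hX1
      have hfin := real_bad_near (B := 2 ^ α) (c := cc) (e0 := e0) (a := (2 * cc) ^ α)
        (Rh := h.re) (nh := ‖h‖) (P := e0 * (M ^ 2 * θ ^ 2 / (2 * cc ^ 2))) (T := e0 * M ^ 2)
        (β := β) hβ0 hB hnear hc1 he0n he24 ha0 ha hRe (norm_nonneg h) hnh1 hT hP0 hP
      rw [hpn]
      have h5 := norm_sub_sq ((2 * cc) ^ α) h
      rw [← h5] at hfin
      exact abs_le_of_sq_le_sq' hfin (by linarith) |>.2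

end Pool.Agent.H329R3.Br
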