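import Mathlib
import Pool.Agent.H329R3.Br7

set_option autoImplicit false
open Filter Topology MeasureTheory Set

namespace Pool.Agent.H329R3.Br

lemma triv_case {α : ℝ} {m : ℕ} (h : ∀ k ≤ m, 0 ≤ c α k) {x : ℂ} (hx : ‖x‖ = 1) :
    ‖p α m x‖ ≤ S α m := by
  unfold p S
  refine (norm_sum_le _ _).trans ?_
  apply Finset.sum_le_sum
  intro k hk
  rw [norm_mul, norm_pow, hx, one_pow, mul_one, Complex.norm_real, Real.norm_of_nonneg]
  exact h k (by rw [Finset.mem_range] at hk; omega)

lemma c_nonneg_of {α : ℝ} {k : ℕ} (h : ∀ j < k, 0 ≤ α - (j : ℝ)) : 0 ≤ c α k := by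
  unfold c
  apply div_nonneg _ (by positivity)
  apply Finset.prod_nonneg
  intro j hj
  exact h j (Finset.mem_range.1 hj)

theorem main_ne {α : ℝ} (h0 : 0 < α) {m : ℕ} (hodd : Odd m) {x : ℂ}
    (hx : ‖x‖ = 1) (hx1 : 1 + x ≠ 0) : ‖p α m x‖ ≤ S α m := by
  rcases lt_or_ge α 1 with h1 | h1
  · exact case_lt_one h0 h1 hodd hx hx1
  · obtain ⟨N, hN⟩ : ∃ N : ℕ, N = ⌊α⌋₊ := ⟨_, rfl⟩
    have hN1 : (N : ℝ) ≤ α := by rw [hN]; exact Nat.floor_le h0.le
    have hN2 : α < N + 1 := by rw [hN]; exact Nat.lt_floor_add_one α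
    have hN3 : 1 ≤ N := by rw [hN]; exact Nat.le_floor (by simpa using h1)
    rcases hN1.eq_or_lt with h2 | h2
    · apply triv_case _ hx
      intro k _
      rcases le_or_gt k N with h3 | h3
      · apply c_nonneg_of
        intro j hj
        have : (j:ℝ) ≤ N := by exact_mod_cast (hj.le.trans h3)
        linarith
      · unfold c
        rw [Finset.prod_eq_zero (Finset.mem_range.2 h3) (by rw [h2, sub_self])]
        simp
    · rcases le_or_gt m (N + 1) with h3 | h3
      · apply triv_case _ hx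
        intro k hk
        apply c_nonneg_of
        intro j hj
        have : j ≤ N := by omega
        have : (j:ℝ) ≤ N := by exact_mod_cast this
        linarith
      · obtain ⟨N', rfl⟩ : ∃ N', N = N' + 1 := ⟨N - 1, by omega⟩
        have h4 := case_gt_one N' (β := α - ((N' + 1 : ℕ) : ℝ)) (by linarith) (by linarith)
          (m := m) (by omega) hx hx1
        have h5 : (N' : ℝ) + 1 + (α - ((N' + 1 : ℕ) : ℝ)) = α := by push_cast; ring
        rwa [h5] at h4

theorem main_all {α : ℝ} (h0 : 0 < α) {m : ℕ} (hodd : Odd m) {x : ℂ}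
    (hx : ‖x‖ = 1) : ‖p α m x‖ ≤ S α m := by
  by_cases hx1 : 1 + x = 0
  · have hxe : x = -1 := by linear_combination hx1
    have hlim : Tendsto (fun n : ℕ => Complex.exp (((Real.pi - 1 / ((n:ℝ) + 1) : ℝ) : ℂ) * Complex.I))
        atTop (𝓝 x) := by
      have h1 : Tendsto (fun n : ℕ => (Real.pi - 1 / ((n:ℝ) + 1) : ℝ)) atTop (𝓝 Real.pi) := by
        simpa using (tendsto_one_div_add_atTop_nhds_zero_nat (𝕜 := ℝ)).const_sub Real.pi
      have h2 : Continuous (fun r : ℝ => Complex.exp ((r : ℂ) * Complex.I)) := by fun_prop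
      have h3 := (h2.tendsto Real.pi).comp h1
      rw [Complex.exp_pi_mul_I] at h3
      rw [hxe]
      exact h3
    have hcont : Continuous (fun z : ℂ => ‖p α m z‖) := by
      unfold p; fun_prop
    have h4 := (hcont.tendsto x).comp hlim
    refine le_of_tendsto h4 (Eventually.of_forall fun n => ?_)
    simp only [Function.comp]
    have hn : 0 < 1 / ((n:ℝ) + 1) := by positivity
    have hn1 : 1 / ((n:ℝ) + 1) ≤ 1 := by
      rw [div_le_one (by positivity)]
      have : (0:ℝ) ≤ n := Nat.cast_nonneg n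
      linarith
    have hpi := Real.pi_gt_three
    apply main_ne h0 hodd (Complex.norm_exp_ofReal_mul_I _)
    apply norm_pos_iff.1
    rw [norm_one_add_exp (by linarith) (by linarith)]
    have := cos_half_pos (θ := Real.pi - 1 / ((n:ℝ) + 1)) (by linarith) (by linarith)
    linarith
  · exact main_ne h0 hodd hx hx1

end Pool.Agent.H329R3.Br
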