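import Mathlib

set_option autoImplicit false
open Filter Topology

namespace Pool.Agent.H329R3.Sinc

/-- the entire function `sin z / z` -/
noncomputable def sinc : ℂ → ℂ := dslope Complex.sin 0

lemma sinc_diff : Differentiable ℂ sinc := by
  have h := (Complex.differentiableOn_dslope (s := Set.univ) (c := (0:ℂ)) (f := Complex.sin)
    Filter.univ_mem).2 Complex.differentiable_sin.differentiableOn
  exact differentiableOn_univ.1 h

lemma mul_sinc (z : ℂ) : z * sinc z = Complex.sin z := by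
  have := sub_smul_dslope Complex.sin 0 z
  simpa [sinc] using this

lemma sinc_zero : sinc 0 = 1 := by
  simp [sinc, dslope_same]

lemma iter_sinc (n : ℕ) : iteratedDeriv (n + 1) Complex.sin 0 = (n + 1) * iteratedDeriv n sinc 0 := by
  have h1 : Complex.sin = fun z => (fun z : ℂ => z) z * sinc z := by
    ext z; exact (mul_sinc z).symm
  have hc : ContDiff ℂ (n + 1 : ℕ) sinc := sinc_diff.contDiff
  have h2 := iteratedDeriv_fun_mul (n := n + 1) (f := fun z : ℂ => z) (g := sinc) (x := 0)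
    contDiff_id.contDiffAt hc.contDiffAt
  rw [h1, h2]
  rw [Finset.sum_eq_single 1]
  · simp
  · intro b _ hb
    rcases Nat.lt_or_ge b 1 with h | h
    · have : b = 0 := by omega
      subst this
      simp
    · have : 2 ≤ b := by omega
      obtain ⟨k, rfl⟩ : ∃ k, b = k + 2 := ⟨b - 2, by omega⟩
      have : iteratedDeriv (k + 2) (fun z : ℂ => z) 0 = 0 := by
        rw [iteratedDeriv_succ', iteratedDeriv_succ']
        simp
      rw [this]
      simp
  · intro h
    simp at h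

lemma iter_ne (n : ℕ) : iteratedDeriv n sinc 0 ≠ 0 ↔ Even n := by
  have h := iter_sinc n
  have hn : ((n:ℂ) + 1) ≠ 0 := by exact_mod_cast Nat.succ_ne_zero n
  rcases Nat.even_or_odd' n with ⟨k, rfl | rfl⟩
  · rw [Complex.iteratedDeriv_odd_sin] at h
    simp only [Pi.mul_apply, Pi.pow_apply, Pi.neg_apply, Pi.one_apply, Complex.cos_zero,
      mul_one] at h
    constructor
    · intro _; exact even_two_mul k
    · intro _ h0
      rw [h0, mul_zero] at h
      exact pow_ne_zero k (neg_ne_zero.2 one_ne_zero) h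
  · rw [show 2 * k + 1 + 1 = 2 * (k + 1) by ring, Complex.iteratedDeriv_even_sin] at h
    simp only [Pi.mul_apply, Pi.pow_apply, Pi.neg_apply, Pi.one_apply, Complex.sin_zero,
      mul_zero] at h
    constructor
    · intro h0
      exact absurd ((mul_eq_zero.1 h.symm).resolve_left hn) h0
    · intro h0
      exfalso
      exact (Nat.not_even_iff_odd.2 ⟨k, rfl⟩) h0

lemma card_eq {t : ℝ} (ht : 0 ≤ t) :
    Nat.card {n : ℕ // iteratedDeriv n sinc 0 ≠ 0 ∧ (n : ℝ) ≤ t} = ⌊t / 2⌋₊ + 1 := by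
  have e : {n : ℕ | iteratedDeriv n sinc 0 ≠ 0 ∧ (n : ℝ) ≤ t} =
      ((Finset.range (⌊t / 2⌋₊ + 1)).image (fun k => 2 * k) : Finset ℕ) := by
    ext n
    simp only [Set.mem_ofPred_eq, Finset.coe_image, Set.mem_image, Finset.coe_range, Set.mem_Iio,
      iter_ne]
    constructor
    · rintro ⟨⟨k, rfl⟩, h2⟩
      refine ⟨k, ?_, by ring⟩
      apply Nat.lt_succ_of_le
      apply Nat.le_floor
      push_cast at h2
      linarith
    · rintro ⟨k, hk, rfl⟩
      refine ⟨even_two_mul k, ?_⟩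
      have h3 : k ≤ ⌊t / 2⌋₊ := Nat.lt_succ_iff.1 hk
      have h4 := (Nat.le_floor_iff (by positivity)).1 h3
      push_cast
      linarith
  have e2 : Nat.card {n : ℕ // iteratedDeriv n sinc 0 ≠ 0 ∧ (n : ℝ) ≤ t} =
      Nat.card ({n : ℕ | iteratedDeriv n sinc 0 ≠ 0 ∧ (n : ℝ) ≤ t} : Set ℕ) := rfl
  rw [e2, e, Nat.card_eq_card_toFinset]
  simp only [Finset.toFinset_coe]
  rw [Finset.card_image_of_injective _ (fun a b h => by simpa using h), Finset.card_range]

lemma norm_sin_le (z : ℂ) : ‖Complex.sin z‖ ≤ Real.exp ‖z‖ := by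
  rw [Complex.sin]
  have h1 : ‖Complex.exp (-z * Complex.I)‖ ≤ Real.exp ‖z‖ := by
    refine (Complex.norm_exp_le_exp_norm _).trans ?_
    rw [norm_mul, norm_neg, Complex.norm_I, mul_one]
  have h2 : ‖Complex.exp (z * Complex.I)‖ ≤ Real.exp ‖z‖ := by
    refine (Complex.norm_exp_le_exp_norm _).trans ?_
    rw [norm_mul, Complex.norm_I, mul_one]
  rw [norm_div, norm_mul, Complex.norm_I, mul_one]
  have h3 := norm_sub_le (Complex.exp (-z * Complex.I)) (Complex.exp (z * Complex.I))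
  have h4 : ‖(2:ℂ)‖ = 2 := by simp
  rw [h4]
  linarith

lemma growth {ε : ℝ} (hε : 0 < ε) : ∀ᶠ r : ℝ in atTop, ∀ z : ℂ, ‖z‖ = r →
    ‖sinc z‖ ≤ Real.exp (r ^ (1 + ε)) := by
  filter_upwards [eventually_ge_atTop (1:ℝ)] with r hr z hz
  have hz0 : z ≠ 0 := by
    rw [← norm_pos_iff, hz]; linarith
  have h1 : sinc z = Complex.sin z / z := by
    rw [eq_div_iff hz0, mul_comm]; exact mul_sinc z
  rw [h1, norm_div, hz]
  have h2 := norm_sin_le z
  rw [hz] at h2
  have h3 : r ≤ r ^ (1 + ε) := by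
    have := Real.rpow_le_rpow_of_exponent_le hr (by linarith : (1:ℝ) ≤ 1 + ε)
    rwa [Real.rpow_one] at this
  calc ‖Complex.sin z‖ / r ≤ ‖Complex.sin z‖ := div_le_self (norm_nonneg _) hr
    _ ≤ Real.exp r := h2
    _ ≤ _ := Real.exp_le_exp.2 h3

lemma dens {ξ : ℝ} (h0 : 0 < ξ) (h1 : ξ < 1) :
    Tendsto (fun t : ℝ =>
          (((Nat.card {n : ℕ // iteratedDeriv n sinc 0 ≠ 0 ∧ (n : ℝ) ≤ t} : ℕ) : ℝ) -
            ((Nat.card {n : ℕ // iteratedDeriv n sinc 0 ≠ 0 ∧ (n : ℝ) ≤ ξ * t} : ℕ) : ℝ)) /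
            ((1 - ξ) * t)) atTop (𝓝 (1 / 2)) := by
  have hξ : 0 < 1 - ξ := by linarith
  have key : Tendsto (fun t : ℝ => 1 / 2 + (1 / (1 - ξ)) * t⁻¹) atTop (𝓝 (1 / 2)) := by
    have := (tendsto_inv_atTop_zero (𝕜 := ℝ)).const_mul (1 / (1 - ξ))
    have h2 := this.const_add (1 / 2)
    rw [mul_zero, add_zero] at h2
    exact h2
  have key2 : Tendsto (fun t : ℝ => 1 / 2 - (1 / (1 - ξ)) * t⁻¹) atTop (𝓝 (1 / 2)) := by
    have := (tendsto_inv_atTop_zero (𝕜 := ℝ)).const_mul (1 / (1 - ξ))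
    have h2 := this.const_sub (1 / 2)
    rw [mul_zero, sub_zero] at h2
    exact h2
  refine tendsto_of_tendsto_of_tendsto_of_le_of_le' key2 key ?_ ?_
  · filter_upwards [eventually_gt_atTop (0:ℝ)] with t ht
    rw [card_eq ht.le, card_eq (by positivity)]
    push_cast
    have e1 := Nat.lt_floor_add_one (t / 2)
    have e2 := Nat.floor_le (a := ξ * t / 2) (by positivity)
    rw [le_div_iff₀ (by positivity)]
    have : (1 / 2 - 1 / (1 - ξ) * t⁻¹) * ((1 - ξ) * t) = (1 - ξ) * t / 2 - 1 := by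
      field_simp
    rw [this]
    linarith
  · filter_upwards [eventually_gt_atTop (0:ℝ)] with t ht
    rw [card_eq ht.le, card_eq (by positivity)]
    push_cast
    have e1 := Nat.floor_le (a := t / 2) (by positivity)
    have e2 := Nat.lt_floor_add_one (ξ * t / 2)
    rw [div_le_iff₀ (by positivity)]
    have : (1 / 2 + 1 / (1 - ξ) * t⁻¹) * ((1 - ξ) * t) = (1 - ξ) * t / 2 + 1 := by
      field_simp
    rw [this]
    linarith

lemma lim_sinc : Tendsto (fun t : ℝ => sinc (t : ℂ)) atTop (𝓝 0) := by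
  have h1 : Tendsto (fun t : ℝ => t⁻¹) atTop (𝓝 0) := tendsto_inv_atTop_zero
  apply squeeze_zero_norm' _ h1
  filter_upwards [eventually_gt_atTop (0:ℝ)] with t ht
  have ht0 : (t : ℂ) ≠ 0 := by exact_mod_cast ht.ne'
  have h1 : sinc t = Complex.sin t / t := by
    rw [eq_div_iff ht0, mul_comm]; exact mul_sinc _
  rw [h1, norm_div, ← Complex.ofReal_sin, Complex.norm_real, Complex.norm_real,
    Real.norm_of_nonneg ht.le, Real.norm_eq_abs, div_le_iff₀ ht, inv_mul_cancel₀ ht.ne']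
  exact Real.abs_sin_le_one t

end Pool.Agent.H329R3.Sinc
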